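import Pool.Agent.NOD.S5

/-!
Piece QUA of project NOD, section S5: a nodal form containing an irreducible quadric surface has at
least `2 (d-1) (d-2)` singular points.
-/

set_option autoImplicit false

namespace Pool.Agent.NOD.S5

open MvPolynomial Module

/-- values of a form at a multiple of a point -/
lemma qua_smul {n k : ℕ} {f : MvPolynomial (Fin n) ℂ} (hf : f.IsHomogeneous k) (c : ℂ)
    (v : Fin n → ℂ) : eval (c • v) f = c ^ k * eval v f := by
  rw [eval_eq, eval_eq, Finset.mul_sum]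
  refine Finset.sum_congr rfl fun m hm => ?_
  have h1 : m.degree = k := by
    by_contra hne
    exact (mem_support_iff.1 hm) (hf.coeff_eq_zero hne)
  have h2 : ∏ i ∈ m.support, (c • v) i ^ m i = c ^ k * ∏ i ∈ m.support, v i ^ m i := by
    rw [← h1, Finsupp.degree_apply, ← Finset.prod_pow_eq_pow_sum, ← Finset.prod_mul_distrib]
    refine Finset.prod_congr rfl fun i _ => ?_
    rw [Pi.smul_apply, smul_eq_mul, mul_pow]
  rw [h2]; ring

lemma qua_grad {n k : ℕ} {f : MvPolynomial (Fin n) ℂ} (hf : f.IsHomogeneous k) (c : ℂ)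
    (v : Fin n → ℂ) : grad f (c • v) = c ^ (k - 1) • grad f v := by
  funext i
  simp only [grad, Pi.smul_apply, smul_eq_mul]
  exact qua_smul hf.pderiv c v

/-- the transpose of `L` -/
noncomputable def tr (L : (Fin 4 → ℂ) →ₗ[ℂ] (Fin 5 → ℂ)) : (Fin 5 → ℂ) →ₗ[ℂ] (Fin 4 → ℂ) :=
  (LinearMap.toMatrix' L).transpose.mulVecLin

lemma tr_apply (L : (Fin 4 → ℂ) →ₗ[ℂ] (Fin 5 → ℂ)) (u : Fin 5 → ℂ) (j : Fin 4) :
    tr L u j = ∑ i, L (Pi.single j 1) i * u i := by
  simp only [tr, Matrix.mulVecLin_apply, Matrix.mulVec, dotProduct, Matrix.transpose_apply,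
    LinearMap.toMatrix'_apply]

lemma tr_ker (L : (Fin 4 → ℂ) →ₗ[ℂ] (Fin 5 → ℂ)) (hL : Function.Injective L) :
    finrank ℂ (LinearMap.ker (tr L)) = 1 := by
  have h1 : finrank ℂ (LinearMap.range (tr L)) = 4 := by
    have h2 : (LinearMap.toMatrix' L).transpose.rank = 4 := by
      rw [Matrix.rank_transpose]
      have h3 : (LinearMap.toMatrix' L).mulVecLin = L := by
        rw [← Matrix.toLin'_apply', Matrix.toLin'_toMatrix']
      rw [Matrix.rank, h3, LinearMap.finrank_range_of_inj hL]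
      simp
    exact h2
  have h2 := LinearMap.finrank_range_add_finrank_ker (tr L)
  rw [h1] at h2
  simp only [finrank_fintype_fun_eq_card, Fintype.card_fin] at h2
  omega

theorem t_QUA (hLOW : S_LOW) (hUPP : S_UPP) (hPUL : S_PUL) (hDEC : S_DEC) (hHES : S_HES) :
    S_QUA := by
  classical
  rintro d F hd hF hN ⟨L, q, hL, hq, hqi, hv⟩
  obtain ⟨h, q', A, B, hh, hq', hA, hB, hFe, hLh, hLq⟩ := hDEC L d F q hL (by omega) hF hq hqi hv
  by_cases hfin : (Sing F).Finite
  swap
  · rw [Set.Infinite.encard_eq hfin]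
    exact le_top
  obtain ⟨φ, hφ⟩ : ∃ φ, φ = Projectivization.map L hL := ⟨_, rfl⟩
  have hφi : Function.Injective φ := by
    rw [hφ]; exact Projectivization.map_injective L hL
  obtain ⟨f, hf⟩ : ∃ f : Fin 3 → MvPolynomial (Fin 4) ℂ, f = ![q, pull L A, pull L B] := ⟨_, rfl⟩
  obtain ⟨g, hg⟩ : ∃ g : Fin 3 → MvPolynomial (Fin 5) ℂ, g = ![q', A, B] := ⟨_, rfl⟩
  have hfg : ∀ i, f i = pull L (g i) := by
    intro i
    rw [hf, hg]
    fin_cases i
    · simp [hLq]
    · simp
    · simp
  have hgform : ∀ i, ∃ k, (g i).IsHomogeneous k := by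
    intro i
    rw [hg]
    fin_cases i
    · exact ⟨2, hq'⟩
    · exact ⟨d - 1, hA⟩
    · exact ⟨d - 2, hB⟩
  have hfform : ∀ i, IsForm (f i) := by
    intro i
    obtain ⟨k, hk⟩ := hgform i
    rw [hfg]
    exact ⟨k, (hPUL 4 5 L (g i)).2.1 k hk⟩
  obtain ⟨Z, hZ⟩ : ∃ Z : Set (Projectivization ℂ (Fin 4 → ℂ)),
    Z = {p | ∀ i, eval p.rep (f i) = 0} := ⟨_, rfl⟩
  -- the point of the threefold
  have hpt : ∀ p ∈ Z, φ p ∈ Sing F ∧ LinearIndependent ℂ (fun i => grad (f i) p.rep) := by
    intro p hp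
    rw [hZ] at hp
    have hLv : L p.rep ≠ 0 := by
      intro h0
      exact p.rep_nonzero (hL (by rw [h0, map_zero]))
    obtain ⟨c, hc⟩ := Projectivization.exists_smul_eq_mk_rep ℂ (L p.rep) hLv
    have hφp : φ p = Projectivization.mk ℂ (L p.rep) hLv := by
      conv_lhs => rw [← p.mk_rep, hφ]
      rw [Projectivization.map_mk]
    rw [← hφp] at hc
    have hrep : (φ p).rep = L ((c : ℂ) • p.rep) := by
      rw [← hc, map_smul]; rfl
    have hc0 : (c : ℂ) ≠ 0 := c.ne_zero
    have hval : ∀ i, eval (φ p).rep (g i) = 0 := by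
      intro i
      rw [hrep, ← (hPUL 4 5 L (g i)).1, ← hfg]
      obtain ⟨k, hk⟩ := hfform i
      rw [qua_smul hk, hp i, mul_zero]
    have hvalh : eval (φ p).rep h = 0 := by
      rw [hrep, ← (hPUL 4 5 L h).1, hLh, map_zero]
    have h0 : eval (φ p).rep q' = 0 := by simpa [hg] using hval 0
    have h1 : eval (φ p).rep A = 0 := by simpa [hg] using hval 1
    have h2 : eval (φ p).rep B = 0 := by simpa [hg] using hval 2
    obtain ⟨e1, e2, e3⟩ := hHES h q' A B (φ p).rep hvalh h0 h1 h2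
    rw [← hFe] at e1 e2 e3
    refine ⟨⟨e1, e2⟩, ?_⟩
    have hind := e3 (hN (φ p) e1 e2)
    obtain ⟨x, hx⟩ : ∃ x, x = (φ p).rep := ⟨_, rfl⟩
    rw [← hx] at hind
    obtain ⟨v, hv'⟩ : ∃ v, v = (c : ℂ) • p.rep := ⟨_, rfl⟩
    have hxv : x = L v := by rw [hx, hrep, hv']
    -- gradients at `v`
    have hgr : ∀ u : MvPolynomial (Fin 5) ℂ, grad (pull L u) v = tr L (grad u x) := by
      intro u
      funext j
      rw [(hPUL 4 5 L u).2.2 v j, tr_apply, hxv]
    have hker : tr L (grad h x) = 0 := by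
      rw [← hgr, hLh]
      funext i
      simp [grad]
    have hhne : grad h x ≠ 0 := by
      have := hind.ne_zero (0 : Fin 4)
      simpa using this
    have hspan : ∀ w ∈ LinearMap.ker (tr L), ∃ s : ℂ, s • grad h x = w := by
      intro w hw
      have h3 := (finrank_eq_one_iff_of_nonzero' (⟨grad h x, hker⟩ : LinearMap.ker (tr L)) (by
        intro h4
        exact hhne (congrArg Subtype.val h4))).1 (tr_ker L hL) ⟨w, hw⟩
      obtain ⟨s, hs⟩ := h3
      exact ⟨s, congrArg Subtype.val hs⟩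
    have hindv : LinearIndependent ℂ (fun i => grad (f i) v) := by
      rw [Fintype.linearIndependent_iff]
      intro s hs
      have h4 : tr L (∑ i, s i • grad (g i) x) = 0 := by
        rw [map_sum, ← hs]
        refine Finset.sum_congr rfl fun i _ => ?_
        rw [map_smul, ← hgr, ← hfg]
      obtain ⟨t, ht⟩ := hspan _ h4
      rw [Fintype.linearIndependent_iff] at hind
      have h5 := hind ![-t, s 0, s 1, s 2] (by
        rw [Fin.sum_univ_succ]
        simp only [Matrix.cons_val_zero, Matrix.cons_val_succ]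
        rw [neg_smul, ht, Fin.sum_univ_three, Fin.sum_univ_three, hg]
        simp
        abel)
      intro i
      fin_cases i
      · simpa using h5 1
      · simpa using h5 2
      · simpa using h5 3
    -- scaling
    choose k hk using hfform
    have h6 : ∀ i, grad (f i) v = (c : ℂ) ^ (k i - 1) • grad (f i) p.rep := by
      intro i
      rw [hv', qua_grad (hk i)]
    have h7 := hindv.units_smul (fun i => (c ^ (k i - 1))⁻¹)
    convert h7 using 1
    funext i
    rw [Pi.smul_apply', h6, Units.smul_def, smul_smul, ← Units.val_pow_eq_pow_val,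
      ← Units.val_mul, inv_mul_cancel, Units.val_one, one_smul]
  have hZf : Z.Finite := by
    refine Set.Finite.of_injOn (f := φ) (fun p hp => (hpt p hp).1) hφi.injOn hfin
  obtain ⟨k₀, hk₀⟩ := hLOW q (pull L A) (pull L B) (d - 1) (d - 2) hq hqi
    ((hPUL 4 5 L A).2.1 _ hA) ((hPUL 4 5 L B).2.1 _ hB)
  obtain ⟨k₁, hk₁⟩ := hUPP f hfform Z hZ hZf (fun p hp => (hpt p hp).2)
  have h8 := hk₀ (max k₀ k₁) (le_max_left _ _)
  have h9 := hk₁ (max k₀ k₁) (le_max_right _ _)
  have hr : Set.range f = {q, pull L A, pull L B} := by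
    rw [hf]
    ext y
    simp only [Set.mem_range, Set.mem_insert_iff, Set.mem_singleton_iff, Fin.exists_fin_succ,
      Matrix.cons_val_zero, Matrix.cons_val_succ, IsEmpty.exists_iff, or_false]
    constructor
    · rintro (h | h | h) <;> simp [h]
    · rintro (h | h | h) <;> simp [h]
  rw [hr] at h9
  have h10 : 2 * (d - 1) * (d - 2) ≤ Z.ncard := by omega
  have h11 : Z.ncard ≤ (Sing F).ncard :=
    Set.ncard_le_ncard_of_injOn φ (fun p hp => (hpt p hp).1) hφi.injOn hfin
  rw [← hfin.cast_ncard_eq]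
  have h12 : 2 * (d - 2) * (d - 1) = 2 * (d - 1) * (d - 2) := by ring
  rw [h12]
  exact_mod_cast h10.trans h11

end Pool.Agent.NOD.S5
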