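import Pool.Agent.NOD.S5.Lem82

/-!
# Piece ADD of project NOD, section S5
-/

set_option autoImplicit false

namespace Pool.Agent.NOD.S5

open MvPolynomial Module

theorem t_ADD : S_ADD := by
  intro I B b hI hB k
  by_cases hB0 : B = 0
  · subst hB0
    have h1 : I ⊔ Ideal.span {(0 : MvPolynomial (Fin 4) ℂ)} = I := by
      rw [Ideal.span_singleton_eq_bot.2 rfl, sup_bot_eq]
    rw [h1]
    exact Nat.add_le_add_left (Submodule.finrank_mono inf_le_left) _
  · rw [L82.degPart_sup hI hB k]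
    have h4 := Submodule.finrank_sup_add_finrank_inf_eq (degPart I (k + b)) (L82.mulW B (W 4 k))
    rw [L82.finrank_mulW hB0] at h4
    have h5 : L82.mulW B (degPart I k) ≤ degPart I (k + b) ⊓ L82.mulW B (W 4 k) := by
      intro f hf
      obtain ⟨g, hg, rfl⟩ := L82.mem_mulW.1 hf
      obtain ⟨h6, h7⟩ := L82.mem_degPart.1 hg
      refine Submodule.mem_inf.2 ⟨L82.mem_degPart.2 ⟨?_, ?_⟩, L82.mem_mulW.2 ⟨g, h6, rfl⟩⟩
      · rw [mul_comm]
        exact h6.mul hB
      · exact Ideal.mul_mem_left _ _ h7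
    have h6 := Submodule.finrank_mono h5
    rw [L82.finrank_mulW hB0] at h6
    omega

end Pool.Agent.NOD.S5
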