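import Pool.Agent.NOD.S5.DIV

/-!
# Project NOD, section S5, piece CAN (helper15)
-/

set_option autoImplicit false

namespace Pool.Agent.NOD.S5

open MvPolynomial Module

noncomputable section

theorem const_of_deg_zero {n : ℕ} {G : MvPolynomial (Fin n) ℂ} (hG : G.IsHomogeneous 0)
    (h0 : G ≠ 0) : IsUnit G := by
  have hc : G = C (coeff 0 G) := by
    rw [← homogeneousComponent_zero, homogeneousComponent_eq_self hG]
  have hz : coeff 0 G ≠ 0 := by
    intro hz
    rw [hz, C_0] at hc
    exact h0 hc
  rw [hc]
  exact (isUnit_iff_ne_zero.2 hz).map C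

theorem eval_zero_of_pos {n : ℕ} {G : MvPolynomial (Fin n) ℂ} {d : ℕ} (hG : G.IsHomogeneous d)
    (hd : 0 < d) : eval (0 : Fin n → ℂ) G = 0 := by
  have h1 : homogeneousComponent 0 G = 0 := by
    rw [homogeneousComponent_of_mem (n := d) hG, if_neg (by omega)]
  rw [homogeneousComponent_zero] at h1
  have h2 : coeff 0 G = 0 := by
    have := C_injective (Fin n) ℂ (h1.trans C_0.symm)
    exact this
  rw [← h2, ← constantCoeff_eq, eval_zero]

/-- **CAN** -/
theorem t_CAN (hG : S_GEN) (hM : S_MIN) : S_CAN := by
  intro n F g hF hFf hA hgQ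
  have hIp := span_prime hF
  obtain ⟨dF, hdF⟩ := hFf
  have hdF0 : 0 < dF := by
    rcases Nat.eq_zero_or_pos dF with h | h
    · subst h
      exact absurd (const_of_deg_zero hdF hF.ne_zero) hF.not_isUnit
    · exact h
  have key : ∀ d : ℕ, ∀ t r : MvPolynomial (Fin n) ℂ, t.IsHomogeneous d → ¬ F ∣ t →
      t * r ∈ Ideal.span {F, g} → r ∈ Ideal.span {F, g} := by
    intro d
    induction d using Nat.strong_induction_on with
    | _ d ih =>
      intro t r ht hFt htr
      have ht0 : t ≠ 0 := fun h => hFt (h ▸ dvd_zero F)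
      rcases Nat.eq_zero_or_pos d with h0 | h0
      · subst h0
        obtain ⟨s, hs⟩ := (const_of_deg_zero ht ht0).exists_left_inv
        have : r = s * (t * r) := by rw [← mul_assoc, hs, one_mul]
        rw [this]
        exact Ideal.mul_mem_left _ _ htr
      · have htop : Ideal.span {F, t} ≠ ⊤ := by
          intro h
          have h1 : (1 : MvPolynomial (Fin n) ℂ) ∈ Ideal.span {F, t} := h ▸ Submodule.mem_top
          obtain ⟨a, b, hab⟩ := Ideal.mem_span_pair.1 h1
          have h2 := congrArg (eval (0 : Fin n → ℂ)) hab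
          rw [map_add, map_mul, map_mul, eval_zero_of_pos hdF hdF0, eval_zero_of_pos ht h0,
            map_one] at h2
          simp at h2
        obtain ⟨Q, hQp, hQh, hFQ, htQ, hht⟩ := hM n F t hF ⟨dF, hdF⟩ ⟨d, ht⟩ hFt htop
        obtain ⟨G, m, hm0, hm, hFG, hQ⟩ :=
          exists_form_gen hG hF ⟨dF, hdF⟩ hA hQp hQh hFQ hht
        have hgQ' := hgQ Q hQp hQh hFQ hht
        have htQ' := htQ
        rw [hQ] at htQ'
        obtain ⟨x, hx, y, hy, hxy⟩ := Submodule.mem_sup.1 htQ'
        obtain ⟨u, rfl⟩ := Ideal.mem_span_singleton'.1 hx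
        obtain ⟨v, rfl⟩ := Ideal.mem_span_singleton'.1 hy
        -- the component of degree `d`
        have hc : homogeneousComponent d (F * u) + homogeneousComponent d (G * v) = t := by
          rw [← map_add, mul_comm F u, mul_comm G v, hxy, homogeneousComponent_eq_self ht]
        have hFu : ∃ u', homogeneousComponent d (F * u) = F * u' := by
          by_cases h : dF ≤ d
          · exact ⟨_, comp_mul_of_le hdF u h⟩
          · exact ⟨0, by rw [comp_mul_of_not_le hdF u h, mul_zero]⟩
        obtain ⟨u', hu'⟩ := hFu
        by_cases hmd : m ≤ d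
        · rw [hu', comp_mul_of_le hm v hmd] at hc
          set v' := homogeneousComponent (d - m) v with hv'
          have hv'h : v'.IsHomogeneous (d - m) := homogeneousComponent_isHomogeneous _ _
          have hFv' : ¬ F ∣ v' := by
            intro h
            apply hFt
            rw [← hc]
            exact dvd_add (dvd_mul_right _ _) (Dvd.dvd.mul_left h _)
          have h1 : v' * (G * r) ∈ Ideal.span {F, g} := by
            have : v' * (G * r) = t * r - (u' * r) * F := by rw [← hc]; ring
            rw [this]
            exact Ideal.sub_mem _ htr (Ideal.mul_mem_left _ _ (Ideal.subset_span (by simp)))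
          have h2 := ih (d - m) (by omega) v' (G * r) hv'h hFv' h1
          obtain ⟨a, b, hab⟩ := Ideal.mem_span_pair.1 h2
          have hGQ : G ∈ Q := by
            rw [hQ]
            exact Ideal.mem_sup_right (Ideal.subset_span rfl)
          have hbg : b * g ∈ Q := by
            have : b * g = r * G - a * F := by linear_combination hab
            rw [this]
            exact Q.sub_mem (Q.mul_mem_left _ hGQ) (Q.mul_mem_left _ hFQ)
          have hbQ : b ∈ Q := (hQp.mem_or_mem hbg).resolve_right hgQ'
          rw [hQ] at hbQ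
          obtain ⟨x, hx, y, hy, hxy'⟩ := Submodule.mem_sup.1 hbQ
          obtain ⟨c, rfl⟩ := Ideal.mem_span_singleton'.1 hx
          obtain ⟨e, rfl⟩ := Ideal.mem_span_singleton'.1 hy
          have h3 : F ∣ G * (r - e * g) := ⟨a + c * g, by
            rw [← hxy'] at hab
            linear_combination (-1 : MvPolynomial (Fin n) ℂ) * hab⟩
          have h4 : F ∣ r - e * g := (hF.prime.dvd_or_dvd h3).resolve_left hFG
          obtain ⟨w, hw⟩ := h4
          exact Ideal.mem_span_pair.2 ⟨w, e, by linear_combination (-1 : MvPolynomial (Fin n) ℂ) * hw⟩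
        · exfalso
          rw [hu', comp_mul_of_not_le hm v hmd, add_zero] at hc
          exact hFt ⟨u', hc.symm⟩
  intro t r ht hFt htr
  obtain ⟨d, hd⟩ := ht
  exact key d t r hd hFt htr

end

end Pool.Agent.NOD.S5
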