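import Pool.Agent.NOD.S5
import Pool.Agent.H552R3.Tsen.Zero

set_option autoImplicit false

namespace Pool.Agent.NOD.S5

open MvPolynomial Module

/-- two forms of positive degree in five variables have a common nonzero zero -/
theorem t_COM : S_COM := by
  intro G H a b ha hb hG hH
  have key : ∀ (f : MvPolynomial (Fin 5) ℂ) (c : ℕ), 0 < c → f.IsHomogeneous c → eval 0 f = 0 := by
    intro f c hc hf
    have h1 : eval (0 : Fin 5 → ℂ) f = constantCoeff f :=
      DFunLike.congr_fun (MvPolynomial.eval_zero' (R := ℂ) (σ := Fin 5)) f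
    rw [h1, constantCoeff_eq]
    by_contra hne
    have := hf hne
    simp at this
    omega
  obtain ⟨v, hv, h⟩ := Pool.Agent.H552R3.Tsen.exists_common_zero (P := ![G, H]) (by
    intro i
    fin_cases i
    · exact key G a ha hG
    · exact key H b hb hH) (by simp)
  exact ⟨v, hv, h 0, h 1⟩

end Pool.Agent.NOD.S5
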