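import Pool.Agent.NOD.S5

/-! Piece CRA of section S5 of project NOD. -/

set_option autoImplicit false

namespace Pool.Agent.NOD.S5

open MvPolynomial

theorem t_CRA (hL : S_LIN) : S_CRA := by
  intro p f hp hf h0 hli
  obtain ⟨i₀, hi₀⟩ : ∃ i, p i ≠ 0 := by
    by_contra h
    push Not at h
    exact hp (funext h)
  set ℓ : Fin 3 → MvPolynomial (Fin 4) ℂ :=
    fun j => C (p i₀) * X (i₀.succAbove j) - C (p (i₀.succAbove j)) * X i₀ with hℓ
  have hsub : Ideal.span (Set.range fun j : Fin 4 => C (p i₀) * X j - C (p j) * X i₀) ≤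
      Ideal.span (Set.range ℓ) := by
    rw [Ideal.span_le]
    rintro _ ⟨j, rfl⟩
    rcases Fin.eq_self_or_eq_succAbove i₀ j with rfl | ⟨j', rfl⟩
    · simp
    · exact Ideal.subset_span ⟨j', rfl⟩
  have hmem : ∀ G : MvPolynomial (Fin 4) ℂ, IsForm G → eval p G = 0 →
      G ∈ Ideal.span (Set.range ℓ) := fun G ⟨k, hk⟩ hG => hsub (hL 4 p i₀ G k hi₀ hk hG)
  have ha : ∀ i, ∃ c : Fin 3 → MvPolynomial (Fin 4) ℂ, ∑ j, c j * ℓ j = f i := fun i =>
    Ideal.mem_span_range_iff_exists_fun.1 (hmem _ (hf i) (h0 i))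
  choose a ha using ha
  have hℓp : ∀ j, eval p (ℓ j) = 0 := by
    intro j
    simp only [hℓ, map_sub, map_mul, eval_C, eval_X]
    ring
  -- the gradients
  have hgrad : ∀ i, grad (f i) p = ∑ j, eval p (a i j) • grad (ℓ j) p := by
    intro i
    funext k
    rw [← ha i]
    simp only [grad, map_sum, Finset.sum_apply, Pi.smul_apply, smul_eq_mul]
    refine Finset.sum_congr rfl fun j _ => ?_
    rw [Derivation.leibniz]
    simp only [smul_eq_mul, map_add, map_mul, hℓp j, zero_mul, add_zero]
  set M : Matrix (Fin 3) (Fin 3) (MvPolynomial (Fin 4) ℂ) := Matrix.of a with hM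
  refine ⟨M.det, ?_, ?_⟩
  · intro hdet
    have h1 : (M.map (eval p)).det = 0 := by
      rw [← RingHom.mapMatrix_apply, ← RingHom.map_det]
      exact hdet
    obtain ⟨v, hv, hv0⟩ := Matrix.exists_vecMul_eq_zero_iff.2 h1
    have h2 : ∑ i, v i • grad (f i) p = 0 := by
      simp only [hgrad, Finset.smul_sum, smul_smul]
      rw [Finset.sum_comm]
      refine Finset.sum_eq_zero fun j _ => ?_
      rw [← Finset.sum_smul]
      have h3 := congrFun hv0 j
      simp only [Matrix.vecMul, dotProduct, Matrix.map_apply, hM, Matrix.of_apply,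
        Pi.zero_apply] at h3
      rw [h3, zero_smul]
    have h4 := Fintype.linearIndependent_iff.1 hli v h2
    exact hv (funext h4)
  · intro G hG hG0
    have h1 : ∀ j, M.det * ℓ j ∈ Ideal.span (Set.range f) := by
      intro j
      have h2 : M.mulVec ℓ = f := by
        funext i
        simp only [Matrix.mulVec, dotProduct, hM, Matrix.of_apply]
        exact ha i
      have h3 : (M.adjugate * M).mulVec ℓ = M.adjugate.mulVec f := by
        rw [← Matrix.mulVec_mulVec, h2]
      rw [Matrix.adjugate_mul, Matrix.smul_mulVec, Matrix.one_mulVec] at h3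
      have h4 := congrFun h3 j
      rw [Pi.smul_apply, smul_eq_mul] at h4
      rw [h4]
      simp only [Matrix.mulVec, dotProduct]
      exact Ideal.sum_mem _ fun i _ => Ideal.mul_mem_left _ _ (Ideal.subset_span ⟨i, rfl⟩)
    obtain ⟨c, hc⟩ := Ideal.mem_span_range_iff_exists_fun.1 (hmem G hG hG0)
    rw [← hc, Finset.mul_sum]
    refine Ideal.sum_mem _ fun j _ => ?_
    rw [mul_left_comm]
    exact Ideal.mul_mem_left _ _ (h1 j)

end Pool.Agent.NOD.S5
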