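import Pool.Agent.NOD.S5

set_option autoImplicit false

namespace Pool.Agent.NOD.S5

open MvPolynomial Module

theorem hc_mul {n : ℕ} (p F : MvPolynomial (Fin n) ℂ) (a m : ℕ) (hF : F.IsHomogeneous m) :
    homogeneousComponent (a + m) (p * F) = homogeneousComponent a p * F := by
  conv_lhs => rw [← sum_homogeneousComponent p]
  rw [Finset.sum_mul, map_sum]
  have h : ∀ i, homogeneousComponent (a + m) (homogeneousComponent i p * F) =
      if a = i then homogeneousComponent i p * F else 0 := by
    intro i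
    have h1 : (homogeneousComponent i p * F).IsHomogeneous (i + m) :=
      (homogeneousComponent_isHomogeneous i p).mul hF
    rw [homogeneousComponent_of_mem h1]
    by_cases hi : a = i
    · simp [hi]
    · rw [if_neg hi, if_neg (by omega)]
  simp only [h]
  rw [Finset.sum_ite_eq]
  split_ifs with ha
  · rfl
  · rw [homogeneousComponent_eq_zero, zero_mul]
    rw [Finset.mem_range] at ha
    omega

/-- the decomposition of a form which contains an irreducible quadric surface -/
theorem t_DEC (h : S_PUL) : S_DEC := by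
  intro L d F q hL hd hF hq hqi hv
  classical
  obtain ⟨M, hM⟩ := LinearMap.exists_leftInverse_of_injective L (LinearMap.ker_eq_bot.2 hL)
  have hML : ∀ v, M (L v) = v := fun v => LinearMap.congr_fun hM v
  have hsurj : Function.Surjective M := fun v => ⟨L v, hML v⟩
  have hker : finrank ℂ (LinearMap.ker M) = 1 := by
    have h1 := LinearMap.finrank_range_add_finrank_ker M
    rw [LinearMap.range_eq_top.2 hsurj, finrank_top] at h1
    simp at h1
    omega
  obtain ⟨e, he0, he⟩ := finrank_eq_one_iff'.1 hker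
  have hne : (e : Fin 5 → ℂ) ≠ 0 := fun h0 => he0 (Subtype.ext h0)
  obtain ⟨i₀, hi₀⟩ := Function.ne_iff.1 hne
  rw [Pi.zero_apply] at hi₀
  -- the linear form
  let h₀ : (Fin 5 → ℂ) →ₗ[ℂ] ℂ :=
    ((e : Fin 5 → ℂ) i₀)⁻¹ • (LinearMap.proj i₀ ∘ₗ (LinearMap.id - L ∘ₗ M))
  have hh₀ : ∀ x, h₀ x = ((e : Fin 5 → ℂ) i₀)⁻¹ * (x i₀ - L (M x) i₀) := by
    intro x
    simp [h₀]
  have hdec : ∀ x i, x i - L (M x) i = h₀ x * (e : Fin 5 → ℂ) i := by
    intro x i
    have hx : x - L (M x) ∈ LinearMap.ker M := by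
      rw [LinearMap.mem_ker, map_sub, hML, sub_self]
    obtain ⟨c, hc⟩ := he ⟨_, hx⟩
    have hc' : ∀ j, c * (e : Fin 5 → ℂ) j = x j - L (M x) j := by
      intro j
      have := congrFun (congrArg Subtype.val hc) j
      simpa using this
    rw [hh₀, ← hc' i, ← hc' i₀]
    field_simp
  let hp : MvPolynomial (Fin 5) ℂ := ∑ j, C (h₀ (Pi.single j 1)) * X j
  have hpe : ∀ x, eval x hp = h₀ x := by
    intro x
    rw [LinearMap.pi_apply_eq_sum_univ h₀ x]
    simp only [hp, map_sum, map_mul, eval_C, eval_X, smul_eq_mul]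
    refine Finset.sum_congr rfl fun j _ => ?_
    rw [mul_comm]
    congr 2
    ext k
    simp [Pi.single_apply, eq_comm]
  have hph : hp.IsHomogeneous 1 := by
    refine IsHomogeneous.sum _ _ _ fun j _ => ?_
    simpa using (isHomogeneous_C (Fin 5) (h₀ (Pi.single j 1))).mul (isHomogeneous_X ℂ j)
  have hpM : ∀ (f : MvPolynomial (Fin 4) ℂ) x, eval x (pull M f) = eval (M x) f :=
    fun f x => (h 5 4 M f).1 x
  have hpL : ∀ (f : MvPolynomial (Fin 5) ℂ) x, eval x (pull L f) = eval (L x) f :=
    fun f x => (h 4 5 L f).1 x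
  have hX : ∀ i, X i - pull M (pull L (X i)) = hp * C ((e : Fin 5 → ℂ) i) := by
    intro i
    refine MvPolynomial.funext fun x => ?_
    rw [map_sub, hpM, hpL, eval_X, eval_X, map_mul, hpe, eval_C, hdec]
  have hdvd : ∀ f : MvPolynomial (Fin 5) ℂ, hp ∣ f - pull M (pull L f) := by
    intro f
    rw [← Ideal.mem_span_singleton, ← Ideal.Quotient.eq]
    have key : (Ideal.Quotient.mkₐ ℂ (Ideal.span {hp})) =
        (Ideal.Quotient.mkₐ ℂ (Ideal.span {hp})).comp ((pull M).comp (pull L)) := by
      refine MvPolynomial.algHom_ext fun i => ?_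
      change Ideal.Quotient.mk (Ideal.span {hp}) (X i) =
        Ideal.Quotient.mk (Ideal.span {hp}) (pull M (pull L (X i)))
      rw [Ideal.Quotient.eq, hX i, Ideal.mem_span_singleton]
      exact dvd_mul_right _ _
    exact DFunLike.congr_fun key f
  -- Nullstellensatz
  have hqp : Prime q := hqi.prime
  have hqd : q ∣ pull L F := by
    rw [← Ideal.mem_span_singleton]
    have hpr : (Ideal.span {q}).IsPrime := (Ideal.span_singleton_prime hqp.ne_zero).2 hqp
    rw [← IsPrime.vanishingIdeal_zeroLocus (K := ℂ) (Ideal.span {q})]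
    rw [mem_vanishingIdeal_iff]
    intro x hx
    rw [mem_zeroLocus_iff] at hx
    have h1 : eval x q = 0 := by
      have := hx q (Ideal.mem_span_singleton_self q)
      exact this
    change eval x (pull L F) = 0
    rw [hpL]
    exact hv x h1
  obtain ⟨B₀, hB₀⟩ := hqd
  obtain ⟨A₀, hA₀⟩ := hdvd F
  have hLF : (pull L F).IsHomogeneous d := (h 4 5 L F).2.1 d hF
  have hMLF : (pull M (pull L F)).IsHomogeneous d := (h 5 4 M _).2.1 d hLF
  have hB1 : pull L F = homogeneousComponent (d - 2) B₀ * q := by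
    rw [← hc_mul B₀ q (d - 2) 2 hq, show d - 2 + 2 = d by omega, mul_comm B₀ q, ← hB₀,
      homogeneousComponent_eq_self hLF]
  have hA1 : F - pull M (pull L F) = homogeneousComponent (d - 1) A₀ * hp := by
    rw [← hc_mul A₀ hp (d - 1) 1 hph, show d - 1 + 1 = d by omega, mul_comm A₀ hp, ← hA₀,
      homogeneousComponent_eq_self (hF.sub hMLF)]
  refine ⟨hp, pull M q, homogeneousComponent (d - 1) A₀,
    pull M (homogeneousComponent (d - 2) B₀), hph, (h 5 4 M q).2.1 2 hq,
    homogeneousComponent_isHomogeneous _ _,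
    (h 5 4 M _).2.1 _ (homogeneousComponent_isHomogeneous _ _), ?_, ?_, ?_⟩
  · have h2 : pull M (pull L F) = pull M (homogeneousComponent (d - 2) B₀) * pull M q := by
      rw [hB1, map_mul]
    have h3 : F = (F - pull M (pull L F)) + pull M (pull L F) := by ring
    rw [h3, hA1, h2]
    ring
  · refine MvPolynomial.funext fun x => ?_
    rw [hpL, hpe, hh₀, hML, map_zero]
    simp
  · refine MvPolynomial.funext fun x => ?_
    rw [hpL, hpM, hML]

end Pool.Agent.NOD.S5
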