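import Pool.Agent.NOD.S5.EUC

/-!
# Project NOD, section S5, piece DIV (helper15)
-/

set_option autoImplicit false

namespace Pool.Agent.NOD.S5

open MvPolynomial Module

noncomputable section

theorem span_homId {n : ℕ} {F : MvPolynomial (Fin n) ℂ} (hF : IsForm F) : HomId (Ideal.span {F}) := by
  intro f hf m
  obtain ⟨d, hd⟩ := hF
  obtain ⟨c, rfl⟩ := Ideal.mem_span_singleton'.1 hf
  rw [mul_comm]
  by_cases h : d ≤ m
  · rw [comp_mul_of_le hd c h]
    exact Ideal.mem_span_singleton.2 (dvd_mul_right _ _)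
  · rw [comp_mul_of_not_le hd c h]
    exact Ideal.zero_mem _

theorem span_prime {n : ℕ} {F : MvPolynomial (Fin n) ℂ} (hF : Irreducible F) :
    (Ideal.span {F}).IsPrime :=
  (Ideal.span_singleton_prime hF.ne_zero).2 hF.prime

theorem span_ne_of_height {n : ℕ} {F : MvPolynomial (Fin n) ℂ} {Q : Ideal (MvPolynomial (Fin n) ℂ)}
    (hF : Irreducible F) (hQ : Q.height = 2) : Ideal.span {F} ≠ Q := by
  intro h
  have h1 : (Ideal.span {F}).height ≤ 1 := Ideal.height_span_singleton_le_one hF.not_isUnit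
  rw [h, hQ] at h1
  exact absurd h1 (by decide)

theorem pair_eq_sup {n : ℕ} (F G : MvPolynomial (Fin n) ℂ) :
    Ideal.span {F, G} = Ideal.span {F} ⊔ Ideal.span {G} := by
  rw [← Ideal.span_union, Set.singleton_union]

/-- a homogeneous prime of height two is generated by `F` and a form of positive degree -/
theorem exists_form_gen (hG : S_GEN) {n : ℕ} {F : MvPolynomial (Fin n) ℂ} (hF : Irreducible F)
    (hFf : IsForm F) (hA : AllPrincipal F) {Q : Ideal (MvPolynomial (Fin n) ℂ)} (hQp : Q.IsPrime)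
    (hQh : HomId Q) (hFQ : F ∈ Q) (hht : Q.height = 2) :
    ∃ (G : MvPolynomial (Fin n) ℂ) (m : ℕ), 0 < m ∧ G.IsHomogeneous m ∧ ¬ F ∣ G ∧
      Q = Ideal.span {F} ⊔ Ideal.span {G} := by
  obtain ⟨G₀, hG₀⟩ := hA Q hQp hQh hFQ hht
  rw [pair_eq_sup] at hG₀
  have hlt : Ideal.span {F} < Q :=
    lt_of_le_of_ne ((Ideal.span_singleton_le_iff_mem Q).2 hFQ) (span_ne_of_height hF hht)
  obtain ⟨G, ⟨m, hm⟩, hGQ⟩ := hG n (Ideal.span {F}) Q G₀ (span_prime hF) (span_homId hFf) hQh hG₀ hlt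
  have hFG : ¬ F ∣ G := by
    intro h
    apply hlt.ne
    rw [hGQ, eq_comm, sup_eq_left, Ideal.span_singleton_le_iff_mem, Ideal.mem_span_singleton]
    exact h
  refine ⟨G, m, ?_, hm, hFG, hGQ⟩
  rcases Nat.eq_zero_or_pos m with h0 | h0
  · exfalso
    subst h0
    have hc : G = C (coeff 0 G) := by
      rw [← homogeneousComponent_zero, homogeneousComponent_eq_self hm]
    by_cases hz : coeff 0 G = 0
    · rw [hz, C_0] at hc
      exact hFG (hc ▸ dvd_zero F)
    · have hu : IsUnit G := by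
        rw [hc]
        exact (isUnit_iff_ne_zero.2 hz).map C
      apply hQp.ne_top
      rw [hGQ, Ideal.span_singleton_eq_top.2 hu, sup_top_eq]
  · exact h0

theorem hiDeg_form {n : ℕ} {I : Ideal (MvPolynomial (Fin n) ℂ)} {G : MvPolynomial (Fin n) ℂ} {m : ℕ}
    (hm : G.IsHomogeneous m) (hG : G ∉ I) : HiDeg I G m := by
  refine ⟨by rwa [homogeneousComponent_eq_self hm], fun k hk => ?_⟩
  rw [homogeneousComponent_of_mem (n := m) hm, if_neg (by omega)]
  exact I.zero_mem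

theorem hiDeg_congr {n : ℕ} {I : Ideal (MvPolynomial (Fin n) ℂ)} (hI : HomId I)
    {f g : MvPolynomial (Fin n) ℂ} (h : f - g ∈ I) {b : ℕ} (hf : HiDeg I f b) : HiDeg I g b := by
  have hc : ∀ m, homogeneousComponent m f - homogeneousComponent m g ∈ I := fun m => by
    rw [← map_sub]
    exact hI _ h m
  refine ⟨fun h1 => hf.1 ?_, fun m hm => ?_⟩
  · have := I.add_mem (hc b) h1
    rwa [sub_add_cancel] at this
  · have := I.sub_mem (hf.2 m hm) (hc m)
    rwa [sub_sub_cancel] at this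

theorem hiDeg_unique {n : ℕ} {I : Ideal (MvPolynomial (Fin n) ℂ)} {f : MvPolynomial (Fin n) ℂ}
    {b b' : ℕ} (h : HiDeg I f b) (h' : HiDeg I f b') : b = b' := by
  rcases lt_trichotomy b b' with hlt | heq | hlt
  · exact absurd (h.2 b' hlt) h'.1
  · exact heq
  · exact absurd (h'.2 b hlt) h.1

/-- **DIV** -/
theorem t_DIV (hS : S_SUP) (hE : S_EUC) (hG : S_GEN) : S_DIV := by
  intro n F P hF hFf hA hP hlt hform
  have hIp := span_prime hF
  have hIh := span_homId hFf
  obtain ⟨hex, -, -, hhi⟩ := hS n (Ideal.span {F}) hIp hIh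
  have hFP : F ∈ P := hlt.le (Ideal.subset_span rfl)
  -- the property of `EUC`
  set E : MvPolynomial (Fin n) ℂ → Prop := fun g => g ∈ P ∧ g ∉ Ideal.span {F} ∧
    ∀ p ∈ P, ∃ t, IsForm t ∧ t ∉ Ideal.span {F} ∧ t * p ∈ Ideal.span {F} ⊔ Ideal.span {g} with hEdef
  have hne : ∃ b : ℕ, ∃ g, E g ∧ HiDeg (Ideal.span {F}) g b := by
    obtain ⟨g, hg, hg', hg''⟩ := hE n (Ideal.span {F}) P hIp hIh hlt
      (fun t ht htf => Ideal.mem_span_singleton.2 (hform t ht htf))
    obtain ⟨a, b, -, -, h2⟩ := hex g hg'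
    exact ⟨b, g, ⟨hg, hg', hg''⟩, h2⟩
  classical
  obtain ⟨g, ⟨hgP, hgI, hgE⟩, hgb⟩ := Nat.find_spec hne
  refine ⟨g, hgP, ?_, ?_⟩
  · intro p hp
    obtain ⟨t, ht, ht', ht''⟩ := hgE p hp
    exact ⟨t, ht, fun h => ht' (Ideal.mem_span_singleton.2 h), by rwa [pair_eq_sup]⟩
  · intro Q hQp hQh hFQ hht hgQ
    obtain ⟨G, m, hm0, hm, hFG, hQ⟩ := exists_form_gen hG hF hFf hA hQp hQh hFQ hht
    rw [hQ] at hgQ
    obtain ⟨x, hx, y, hy, hxy⟩ := Submodule.mem_sup.1 hgQ
    obtain ⟨v, rfl⟩ := Ideal.mem_span_singleton'.1 hy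
    have hGP : G ∉ P := fun h => hFG (hform G h ⟨m, hm⟩)
    have hvG : v * G ∈ P := by
      have : v * G = g - x := by rw [← hxy]; ring
      rw [this]
      exact P.sub_mem hgP (hlt.le hx)
    have hvP : v ∈ P := (hP.mem_or_mem hvG).resolve_right hGP
    have hvI : v ∉ Ideal.span {F} := fun h => hgI (by
      rw [← hxy]
      exact Ideal.add_mem _ hx (Ideal.mul_mem_right _ _ h))
    have hle : Ideal.span {F} ⊔ Ideal.span {g} ≤ Ideal.span {F} ⊔ Ideal.span {v} := by
      refine sup_le le_sup_left ?_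
      rw [Ideal.span_singleton_le_iff_mem, ← hxy]
      exact Ideal.add_mem _ (Ideal.mem_sup_left hx)
        (Ideal.mem_sup_right (Ideal.mul_mem_right _ _ (Ideal.subset_span rfl)))
    have hEv : E v := ⟨hvP, hvI, fun p hp => by
      obtain ⟨t, ht, ht', ht''⟩ := hgE p hp
      exact ⟨t, ht, ht', hle ht''⟩⟩
    obtain ⟨-, b', -, -, hb'⟩ := hex v hvI
    have h1 : HiDeg (Ideal.span {F}) (v * G) (b' + m) :=
      hhi v G b' m hb' (hiDeg_form hm (fun h => hFG (Ideal.mem_span_singleton.1 h)))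
    have h2 : HiDeg (Ideal.span {F}) g (b' + m) := by
      refine hiDeg_congr hIh ?_ h1
      have : v * G - g = - x := by rw [← hxy]; ring
      rw [this]
      exact (Ideal.span {F}).neg_mem hx
    have h3 := hiDeg_unique hgb h2
    have h4 := Nat.find_min' hne ⟨v, hEv, hb'⟩
    omega

end

end Pool.Agent.NOD.S5
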