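import Pool.Agent.NOD.S5

/-!
# Project NOD, section S5, piece EUC (helper15)
-/

set_option autoImplicit false

namespace Pool.Agent.NOD.S5

open MvPolynomial Module

noncomputable section

attribute [local instance] MvPolynomial.gradedAlgebra

theorem comp_mul_of_le {n b m : ℕ} {u : MvPolynomial (Fin n) ℂ} (hu : u.IsHomogeneous b)
    (f : MvPolynomial (Fin n) ℂ) (h : b ≤ m) :
    homogeneousComponent m (u * f) = u * homogeneousComponent (m - b) f := by
  have h1 := DirectSum.coe_decompose_mul_of_left_mem_of_le (homogeneousSubmodule (Fin n) ℂ)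
    (a := u) (b := f) (i := b) (n := m) hu h
  have h2 := decomposition.decompose'_apply (u * f) m
  have h3 := decomposition.decompose'_apply f (m - b)
  rw [← h2, ← h3]
  exact h1

theorem comp_mul_of_not_le {n b m : ℕ} {u : MvPolynomial (Fin n) ℂ} (hu : u.IsHomogeneous b)
    (f : MvPolynomial (Fin n) ℂ) (h : ¬ b ≤ m) :
    homogeneousComponent m (u * f) = 0 := by
  have h1 := DirectSum.coe_decompose_mul_of_left_mem_of_not_le (homogeneousSubmodule (Fin n) ℂ)
    (a := u) (b := f) (i := b) (n := m) hu h
  have h2 := decomposition.decompose'_apply (u * f) m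
  rw [← h2]
  exact h1

theorem comp_mul {n b m : ℕ} {u : MvPolynomial (Fin n) ℂ} (hu : u.IsHomogeneous b)
    (f : MvPolynomial (Fin n) ℂ) :
    homogeneousComponent (m + b) (u * f) = u * homogeneousComponent m f := by
  rw [comp_mul_of_le hu f (by omega), Nat.add_sub_cancel]

theorem form_comp {n : ℕ} (m : ℕ) (f : MvPolynomial (Fin n) ℂ) : IsForm (homogeneousComponent m f) :=
  ⟨m, homogeneousComponent_isHomogeneous m f⟩

theorem form_mul {n : ℕ} {f g : MvPolynomial (Fin n) ℂ} (hf : IsForm f) (hg : IsForm g) :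
    IsForm (f * g) := by
  obtain ⟨a, ha⟩ := hf
  obtain ⟨b, hb⟩ := hg
  exact ⟨a + b, ha.mul hb⟩

theorem form_one {n : ℕ} : IsForm (1 : MvPolynomial (Fin n) ℂ) := ⟨0, isHomogeneous_one _ _⟩

/-- **EUC** -/
theorem t_EUC (hS : S_SUP) : S_EUC := by
  intro n I P hI hh hIP hform
  obtain ⟨hex, hle, hlo, hhi⟩ := hS n I hI hh
  -- choose `g` of minimal width
  have hne : ∃ w : ℕ, ∃ g ∈ P, ∃ a b, b - a = w ∧ a ≤ b ∧ LoDeg I g a ∧ HiDeg I g b := by
    obtain ⟨g, hg, hg'⟩ := SetLike.exists_of_lt hIP
    obtain ⟨a, b, hab, h1, h2⟩ := hex g hg'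
    exact ⟨b - a, g, hg, a, b, rfl, hab, h1, h2⟩
  classical
  obtain ⟨g, hg, a, b, hw, hab, hga, hgb⟩ := Nat.find_spec hne
  have hmin : ∀ p ∈ P, ∀ c e, LoDeg I p c → HiDeg I p e → b - a ≤ e - c := by
    intro p hp c e hc he
    rw [hw]
    exact Nat.find_min' hne ⟨p, hp, c, e, rfl, (hle p c e hc he).1, hc, he⟩
  refine ⟨g, hg, (hle g a b hga hgb).2, ?_⟩
  have key : ∀ w : ℕ, ∀ p ∈ P, ∀ c e, e - c ≤ w → LoDeg I p c → HiDeg I p e →
      ∃ t, IsForm t ∧ t ∉ I ∧ t * p ∈ I ⊔ Ideal.span {g} := by
    intro w
    induction w using Nat.strong_induction_on with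
    | _ w ih =>
      intro p hp c e hwe hc he
      have hce := (hle p c e hc he).1
      have hm := hmin p hp c e hc he
      set gb := homogeneousComponent b g with hgbdef
      set pe := homogeneousComponent e p with hpedef
      have hgbh : gb.IsHomogeneous b := homogeneousComponent_isHomogeneous b g
      have hpeh : pe.IsHomogeneous e := homogeneousComponent_isHomogeneous e p
      have hgbI : gb ∉ I := hgb.1
      -- `p₁`
      have hp1 : gb * p - pe * g ∈ P := P.sub_mem (P.mul_mem_left _ hp) (P.mul_mem_left _ hg)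
      have hcomp_hi : ∀ m, b + e ≤ m → homogeneousComponent m (gb * p - pe * g) ∈ I := by
        intro m hm
        rw [map_sub, comp_mul_of_le hgbh p (by omega), comp_mul_of_le hpeh g (by omega)]
        rcases hm.eq_or_lt with hm | hm
        · have h1 : m - b = e := by omega
          have h2 : m - e = b := by omega
          rw [h1, h2, ← hgbdef, ← hpedef, mul_comm, sub_self]
          exact I.zero_mem
        · exact I.sub_mem (I.mul_mem_left _ (he.2 _ (by omega)))
            (I.mul_mem_left _ (hgb.2 _ (by omega)))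
      have hcomp_lo : ∀ m, m < b + c → homogeneousComponent m (gb * p - pe * g) ∈ I := by
        intro m hm
        rw [map_sub]
        refine I.sub_mem ?_ ?_
        · by_cases hbm : b ≤ m
          · rw [comp_mul_of_le hgbh p hbm]
            exact I.mul_mem_left _ (hc.2 _ (by omega))
          · rw [comp_mul_of_not_le hgbh p hbm]
            exact I.zero_mem
        · by_cases hbm : e ≤ m
          · rw [comp_mul_of_le hpeh g hbm]
            exact I.mul_mem_left _ (hga.2 _ (by omega))
          · rw [comp_mul_of_not_le hpeh g hbm]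
            exact I.zero_mem
      have hfin : ∃ t, IsForm t ∧ t ∉ I ∧ t * (gb * p - pe * g) ∈ I ⊔ Ideal.span {g} := by
        by_cases hp1I : gb * p - pe * g ∈ I
        · exact ⟨1, form_one, fun h => hI.ne_top ((Ideal.eq_top_iff_one I).2 h), by
            rw [one_mul]; exact Ideal.mem_sup_left hp1I⟩
        · obtain ⟨c', e', hce', hc', he'⟩ := hex _ hp1I
          have hc'' : b + c ≤ c' := by
            by_contra hcon
            exact hc'.1 (hcomp_lo c' (by omega))
          have he'' : e' < b + e := by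
            by_contra hcon
            exact he'.1 (hcomp_hi e' (by omega))
          refine ih (e' - c') (by omega) _ hp1 c' e' le_rfl hc' he'
      obtain ⟨t, htf, htI, ht⟩ := hfin
      refine ⟨t * gb, form_mul htf ⟨b, hgbh⟩, fun h => (hI.mem_or_mem h).elim htI hgbI, ?_⟩
      have : t * gb * p = t * (gb * p - pe * g) + (t * pe) * g := by ring
      rw [this]
      exact Ideal.add_mem _ ht (Ideal.mem_sup_right
        (Ideal.mul_mem_left _ _ (Ideal.subset_span rfl)))
  intro p hp
  by_cases hpI : p ∈ I
  · exact ⟨1, form_one, fun h => hI.ne_top ((Ideal.eq_top_iff_one I).2 h), by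
      rw [one_mul]; exact Ideal.mem_sup_left hpI⟩
  · obtain ⟨c, e, hce, hc, he⟩ := hex p hpI
    exact key (e - c) p hp c e le_rfl hc he

end

end Pool.Agent.NOD.S5
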