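import Pool.Agent.NOD.S5

/-! Piece GEN of section S5 of project NOD. -/

set_option autoImplicit false

namespace Pool.Agent.NOD.S5

open MvPolynomial

theorem t_GEN (hS : S_SUP) : S_GEN := by
  intro n I Q G hI hhI hhQ hQ hIQ
  obtain ⟨s1, s2, s3, s4⟩ := hS n I hI hhI
  have hGQ : G ∈ Q := by
    rw [hQ]
    exact Ideal.mem_sup_right (Ideal.mem_span_singleton_self G)
  have hGI : G ∉ I := by
    intro h
    apply hIQ.ne
    rw [hQ]
    symm
    rw [sup_eq_left, Ideal.span_singleton_le_iff_mem]
    exact h
  obtain ⟨a, b, hab, ha, hb⟩ := s1 G hGI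
  have h1 : homogeneousComponent b G ∈ I ⊔ Ideal.span {G} := by
    rw [← hQ]
    exact hhQ G hGQ b
  obtain ⟨i, hi, y, hy, hiy⟩ := Submodule.mem_sup.1 h1
  obtain ⟨c, rfl⟩ := Ideal.mem_span_singleton'.1 hy
  have hc : c ∉ I := by
    intro h
    apply hb.1
    rw [← hiy]
    exact I.add_mem hi (I.mul_mem_right _ h)
  obtain ⟨a', b', hab', ha', hb'⟩ := s1 c hc
  have hlo := s3 c G a' a ha' ha
  have hhi := s4 c G b' b hb' hb
  have hcomp : ∀ m, m ≠ b → homogeneousComponent m (c * G) ∈ I := by
    intro m hm
    have h2 : c * G = homogeneousComponent b G - i := by rw [← hiy]; ring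
    rw [h2, map_sub, homogeneousComponent_of_mem (homogeneousComponent_mem b G), if_neg hm, zero_sub]
    exact I.neg_mem (hhI i hi m)
  have e1 : a' + a = b := by
    by_contra h
    exact hlo.1 (hcomp _ h)
  have e2 : b' + b = b := by
    by_contra h
    exact hhi.1 (hcomp _ h)
  have e3 : a = b := by omega
  subst e3
  refine ⟨homogeneousComponent a G, ⟨a, homogeneousComponent_isHomogeneous _ _⟩, ?_⟩
  have h3 : G - homogeneousComponent a G ∈ I := by
    have h4 : G - homogeneousComponent a G =
        ∑ m ∈ (Finset.range (G.totalDegree + 1)).erase a, homogeneousComponent m G := by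
      by_cases hm : a ∈ Finset.range (G.totalDegree + 1)
      · rw [sub_eq_iff_eq_add, Finset.sum_erase_add _ _ hm, sum_homogeneousComponent]
      · rw [Finset.erase_eq_of_notMem hm, sum_homogeneousComponent]
        rw [Finset.mem_range, not_lt] at hm
        rw [homogeneousComponent_eq_zero _ _ (by omega), sub_zero]
    rw [h4]
    refine Ideal.sum_mem _ fun m hm => ?_
    rcases lt_or_gt_of_ne (Finset.ne_of_mem_erase hm) with h5 | h5
    · exact ha.2 m h5
    · exact hb.2 m h5
  rw [hQ]
  apply le_antisymm
  · refine sup_le le_sup_left ?_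
    rw [Ideal.span_singleton_le_iff_mem]
    have h5 := Submodule.add_mem _ (Ideal.mem_sup_left (T := Ideal.span {homogeneousComponent a G}) h3)
      (Ideal.mem_sup_right (S := I) (Ideal.mem_span_singleton_self (homogeneousComponent a G)))
    rwa [sub_add_cancel] at h5
  · refine sup_le le_sup_left ?_
    rw [Ideal.span_singleton_le_iff_mem]
    have h5 := Submodule.sub_mem _ (Ideal.mem_sup_right (S := I) (Ideal.mem_span_singleton_self G))
      (Ideal.mem_sup_left (T := Ideal.span {G}) h3)
    rwa [sub_sub_cancel] at h5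

end Pool.Agent.NOD.S5
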