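import Pool.Agent.NOD.S5

/-! Project NOD, section S5, piece HES. -/

set_option autoImplicit false

namespace Pool.Agent.NOD.S5

open MvPolynomial Module

theorem t_HES : S_HES := by
  intro h q A B p hh hq hA hB
  have h1 : ∀ i, eval p (pderiv i (h * A + q * B)) = 0 := by
    intro i
    rw [map_add, Derivation.leibniz, Derivation.leibniz]
    simp only [smul_eq_mul, map_add, map_mul, hh, hq, hA, hB]
    ring
  have h2 : ∀ i j, eval p (pderiv i (pderiv j (h * A + q * B))) =
      grad h p i * grad A p j + grad A p i * grad h p j + grad q p i * grad B p j +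
        grad B p i * grad q p j := by
    intro i j
    rw [map_add, Derivation.leibniz, Derivation.leibniz]
    simp only [smul_eq_mul, map_add, Derivation.leibniz, map_mul, hh, hq, hA, hB, grad]
    ring
  refine ⟨by rw [map_add, map_mul, map_mul, hh, hq]; ring, h1, fun hr => ?_⟩
  rw [linearIndependent_iff_card_le_finrank_span, Fintype.card_fin]
  rw [Matrix.rank_eq_finrank_span_cols] at hr
  refine le_of_eq_of_le hr.symm ?_
  refine Submodule.finrank_mono (Submodule.span_le.2 ?_)
  rintro _ ⟨j, rfl⟩
  have h3 : ∀ k : Fin 4, (![grad h p, grad q p, grad A p, grad B p] : Fin 4 → Fin 5 → ℂ) k ∈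
      Submodule.span ℂ (Set.range ![grad h p, grad q p, grad A p, grad B p]) := fun k =>
    Submodule.subset_span ⟨k, rfl⟩
  have h4 : (Matrix.of (fun i j : Fin 5 => eval p (pderiv i (pderiv j (h * A + q * B))))).col j =
      grad A p j • grad h p + grad B p j • grad q p + grad h p j • grad A p +
        grad q p j • grad B p := by
    funext i
    simp only [Matrix.col_apply, Matrix.of_apply, h2, Pi.add_apply, Pi.smul_apply, smul_eq_mul]
    ring
  rw [SetLike.mem_coe, h4]
  exact Submodule.add_mem _ (Submodule.add_mem _ (Submodule.add_mem _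
    (Submodule.smul_mem _ _ (h3 0)) (Submodule.smul_mem _ _ (h3 1)))
    (Submodule.smul_mem _ _ (h3 2))) (Submodule.smul_mem _ _ (h3 3))

end Pool.Agent.NOD.S5
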