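import Pool.Agent.NOD.S5

/-! Project NOD, section S5, piece HOM4 (adapted from Pool/Agent/Chud/PD2.lean). -/

set_option autoImplicit false

namespace Pool.Agent.NOD.S5

open MvPolynomial Module

theorem t_HOM4 : S_HOM4 := by
  intro n
  have h1 : homogeneousSubmodule (Fin 4) ℂ n = restrictSupport ℂ {d : Fin 4 →₀ ℕ | d.degree = n} :=
    homogeneousSubmodule_eq_finsupp_supported (R := ℂ) (σ := Fin 4) n
  show finrank ℂ (homogeneousSubmodule (Fin 4) ℂ n) = _
  rw [h1, Module.finrank_eq_nat_card_basis (basisRestrictSupport ℂ {d : Fin 4 →₀ ℕ | d.degree = n})]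
  have e : {d : Fin 4 →₀ ℕ | d.degree = n} ≃ Sym (Fin 4) n :=
    (Equiv.subtypeEquivRight (fun d => Iff.rfl)).trans
      (Sym.equivNatSum (Fin 4) n).symm
  rw [Nat.card_congr e, Nat.card_eq_fintype_card, Sym.card_sym_eq_choose, Fintype.card_fin]
  have : 4 + n - 1 = n + 3 := by omega
  rw [this, ← Nat.choose_symm_add]

end Pool.Agent.NOD.S5
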