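import Pool.Agent.NOD.S5

/-!
# Project NOD, section S5, piece IRR
-/

set_option autoImplicit false

namespace Pool.Agent.NOD.S5

open MvPolynomial Module

namespace IrrAux

/-- a polynomial of positive degree is its top component plus a polynomial of smaller degree -/
theorem split {n : ℕ} (G : MvPolynomial (Fin n) ℂ) (h : 0 < G.totalDegree) :
    ∃ G' : MvPolynomial (Fin n) ℂ, G = homogeneousComponent G.totalDegree G + G' ∧
      G'.totalDegree < G.totalDegree := by
  refine ⟨∑ i ∈ Finset.range G.totalDegree, homogeneousComponent i G, ?_, ?_⟩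
  · conv_lhs => rw [← sum_homogeneousComponent G, Finset.sum_range_succ]
    rw [add_comm]
  · refine lt_of_le_of_lt (b := G.totalDegree - 1) (totalDegree_finsetSum_le fun i hi => ?_) (by omega)
    have h1 := (homogeneousComponent_isHomogeneous i G).totalDegree_le
    have h2 := Finset.mem_range.mp hi
    omega

theorem top_mul {n : ℕ} (G H : MvPolynomial (Fin n) ℂ) (hG : 0 < G.totalDegree)
    (hH : 0 < H.totalDegree) :
    homogeneousComponent (G.totalDegree + H.totalDegree) (G * H) =
      homogeneousComponent G.totalDegree G * homogeneousComponent H.totalDegree H := by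
  obtain ⟨G', hG', hG'd⟩ := split G hG
  obtain ⟨H', hH', hH'd⟩ := split H hH
  have hGt := (homogeneousComponent_isHomogeneous G.totalDegree G)
  have hHt := (homogeneousComponent_isHomogeneous H.totalDegree H)
  have e : G * H = homogeneousComponent G.totalDegree G * homogeneousComponent H.totalDegree H +
      (homogeneousComponent G.totalDegree G * H' + G' * H) := by
    linear_combination H * hG' + homogeneousComponent G.totalDegree G * hH'
  rw [e, map_add, map_add]
  have h1 : homogeneousComponent (G.totalDegree + H.totalDegree)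
      (homogeneousComponent G.totalDegree G * H') = 0 := by
    refine homogeneousComponent_eq_zero _ _ ?_
    have := totalDegree_mul (homogeneousComponent G.totalDegree G) H'
    have h2 := hGt.totalDegree_le
    omega
  have h3 : homogeneousComponent (G.totalDegree + H.totalDegree) (G' * H) = 0 := by
    refine homogeneousComponent_eq_zero _ _ ?_
    have := totalDegree_mul G' H
    omega
  rw [h1, h3, add_zero, add_zero]
  exact homogeneousComponent_eq_self (hGt.mul hHt)

theorem hess_rank (g h : Fin 5 → ℂ) :
    (Matrix.of (fun i j : Fin 5 => g i * h j + h i * g j)).rank ≤ 2 := by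
  have e : (Matrix.of (fun i j : Fin 5 => g i * h j + h i * g j)) =
      (Matrix.of (fun (i : Fin 5) (k : Fin 2) => ![g i, h i] k)) *
        (Matrix.of (fun (k : Fin 2) (j : Fin 5) => ![h j, g j] k)) := by
    ext i j
    simp [Matrix.mul_apply, Fin.sum_univ_two]
  rw [e]
  refine (Matrix.rank_mul_le_left _ _).trans ?_
  have := Matrix.rank_le_card_width (Matrix.of (fun (i : Fin 5) (k : Fin 2) => ![g i, h i] k))
  simpa using this

/-- a form vanishes at a multiple of a zero -/
theorem form_smul {n k : ℕ} {G : MvPolynomial (Fin n) ℂ} (hG : G.IsHomogeneous k) (c : ℂ)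
    (p : Fin n → ℂ) (h : eval p G = 0) : eval (c • p) G = 0 := by
  have e : eval (c • p) G = c ^ k * eval p G := by
    rw [eval_eq, eval_eq, Finset.mul_sum]
    refine Finset.sum_congr rfl fun d hd => ?_
    have hdeg : d.degree = k := by
      by_contra h
      exact (mem_support_iff.mp hd) (hG.coeff_eq_zero h)
    have hdeg' : ∑ i ∈ d.support, d i = k := hdeg
    have h1 : ∏ i ∈ d.support, (c • p) i ^ d i = c ^ k * ∏ i ∈ d.support, p i ^ d i := by
      rw [← hdeg', ← Finset.prod_pow_eq_pow_sum, ← Finset.prod_mul_distrib]
      refine Finset.prod_congr rfl fun i _ => ?_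
      rw [Pi.smul_apply, smul_eq_mul, mul_pow]
    rw [h1]
    ring
  rw [e, h, mul_zero]

end IrrAux

open IrrAux

theorem t_IRR (h1 : S_COM) : S_IRR := by
  intro d F hd hF hN
  have hF0 : F ≠ 0 := by
    rintro rfl
    obtain ⟨p⟩ : Nonempty (Projectivization ℂ (Fin 5 → ℂ)) :=
      ⟨Projectivization.mk ℂ (fun _ => 1) (fun h => one_ne_zero (congrFun h 0))⟩
    have h := hN p (by simp) (by simp)
    have h0 : (Matrix.of (fun i j : Fin 5 => eval p.rep
        (pderiv i (pderiv j (0 : MvPolynomial (Fin 5) ℂ))))) = 0 := by
      ext i j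
      simp
    rw [h0, Matrix.rank_zero] at h
    omega
  have hFd : F.totalDegree = d := hF.totalDegree hF0
  constructor
  · intro hu
    obtain ⟨v, hv⟩ := hu.exists_right_inv
    have hv0 : v ≠ 0 := by
      rintro rfl
      rw [mul_zero] at hv
      exact zero_ne_one hv
    have h2 := totalDegree_mul_of_isDomain hF0 hv0
    rw [hv, totalDegree_one] at h2
    omega
  · intro G H hGH
    by_contra hcon
    push Not at hcon
    obtain ⟨hGu, hHu⟩ := hcon
    have hG0 : G ≠ 0 := by rintro rfl; rw [zero_mul] at hGH; exact hF0 hGH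
    have hH0 : H ≠ 0 := by rintro rfl; rw [mul_zero] at hGH; exact hF0 hGH
    have hunit : ∀ f : MvPolynomial (Fin 5) ℂ, f ≠ 0 → f.totalDegree = 0 → IsUnit f := by
      intro f hf hf0
      have h2 := totalDegree_eq_zero_iff_eq_C.mp hf0
      rw [h2]
      have h3 : coeff 0 f ≠ 0 := by
        intro h4
        rw [h4, map_zero] at h2
        exact hf h2
      exact (IsUnit.mk0 _ h3).map C
    have hGp : 0 < G.totalDegree := Nat.pos_of_ne_zero fun h => hGu (hunit G hG0 h)
    have hHp : 0 < H.totalDegree := Nat.pos_of_ne_zero fun h => hHu (hunit H hH0 h)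
    have hsum : F.totalDegree = G.totalDegree + H.totalDegree := by
      rw [hGH]
      exact totalDegree_mul_of_isDomain hG0 hH0
    have htop := top_mul G H hGp hHp
    rw [← hGH, ← hsum, hFd, homogeneousComponent_eq_self hF] at htop
    set G₁ := homogeneousComponent G.totalDegree G with hG₁
    set H₁ := homogeneousComponent H.totalDegree H with hH₁
    have hG₁h : G₁.IsHomogeneous G.totalDegree := homogeneousComponent_isHomogeneous _ _
    have hH₁h : H₁.IsHomogeneous H.totalDegree := homogeneousComponent_isHomogeneous _ _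
    obtain ⟨p, hp0, hpG, hpH⟩ := h1 G₁ H₁ _ _ hGp hHp hG₁h hH₁h
    obtain ⟨c, hc⟩ := Projectivization.exists_smul_eq_mk_rep ℂ p hp0
    set P := Projectivization.mk ℂ p hp0 with hP
    have hrep : P.rep = (c : ℂ) • p := by
      rw [← hc]
      rfl
    have hPG : eval P.rep G₁ = 0 := by rw [hrep]; exact form_smul hG₁h _ _ hpG
    have hPH : eval P.rep H₁ = 0 := by rw [hrep]; exact form_smul hH₁h _ _ hpH
    have hr := hN P (by rw [htop, map_mul, hPG, zero_mul]) (by
      intro i
      rw [htop, Derivation.leibniz]
      simp [hPG, hPH])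
    have hM : (Matrix.of (fun i j : Fin 5 => eval P.rep (pderiv i (pderiv j F)))) =
        Matrix.of (fun i j : Fin 5 => eval P.rep (pderiv i G₁) * eval P.rep (pderiv j H₁) +
          eval P.rep (pderiv i H₁) * eval P.rep (pderiv j G₁)) := by
      ext i j
      rw [Matrix.of_apply, Matrix.of_apply, htop, Derivation.leibniz]
      simp only [map_add, smul_eq_mul, Derivation.leibniz, map_mul, hPG, hPH]
      ring
    rw [hM] at hr
    have := hess_rank (fun i => eval P.rep (pderiv i G₁)) (fun i => eval P.rep (pderiv i H₁))
    omega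

end Pool.Agent.NOD.S5
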