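import Pool.Agent.NOD.S5

/-! Piece LIN of section S5 of project NOD. -/

set_option autoImplicit false

namespace Pool.Agent.NOD.S5.LINaux

open MvPolynomial

/-- a form evaluated at `c * y` -/
theorem aeval_mul_left {A : Type*} [CommRing A] [Algebra ℂ A] {n : ℕ} {G : MvPolynomial (Fin n) ℂ}
    {k : ℕ} (hG : G.IsHomogeneous k) (c : A) (y : Fin n → A) :
    aeval (fun j => c * y j) G = c ^ k * aeval y G := by
  rw [aeval_def, aeval_def, eval₂_eq', eval₂_eq', Finset.mul_sum]
  refine Finset.sum_congr rfl fun d hd => ?_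
  have h1 : ∑ i, d i = k := by
    have h2 := hG (mem_support_iff.1 hd)
    rw [← h2, Finsupp.weight_apply, Finsupp.sum_fintype _ _ (by intros; simp)]
    simp
  have h3 : ∏ i, (c * y i) ^ d i = c ^ k * ∏ i, y i ^ d i := by
    rw [← h1, ← Finset.prod_pow_eq_pow_sum, ← Finset.prod_mul_distrib]
    exact Finset.prod_congr rfl fun i _ => mul_pow _ _ _
  rw [h3]
  ring

end Pool.Agent.NOD.S5.LINaux

namespace Pool.Agent.NOD.S5

open MvPolynomial

theorem t_LIN : S_LIN := by
  intro n p i₀ G k hp hG h0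
  set I : Ideal (MvPolynomial (Fin n) ℂ) :=
    Ideal.span (Set.range fun j => C (p i₀) * X j - C (p j) * X i₀) with hI
  have h1 : ∀ j, Ideal.Quotient.mkₐ ℂ I (C (p i₀) * X j) = Ideal.Quotient.mkₐ ℂ I (C (p j) * X i₀) := by
    intro j
    rw [Ideal.Quotient.mkₐ_eq_mk, Ideal.Quotient.mk_eq_mk_iff_sub_mem]
    exact Ideal.subset_span ⟨j, rfl⟩
  -- the two substitutions agree in the quotient
  have h2 : Ideal.Quotient.mkₐ ℂ I (aeval (fun j => C (p i₀) * X j) G) =
      Ideal.Quotient.mkₐ ℂ I (aeval (fun j => X i₀ * C (p j)) G) := by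
    rw [← AlgHom.comp_apply, ← AlgHom.comp_apply, comp_aeval, comp_aeval]
    congr 2
    funext j
    rw [h1 j, mul_comm (C (p j))]
  rw [LINaux.aeval_mul_left hG, LINaux.aeval_mul_left hG, aeval_X_left_apply] at h2
  have h3 : aeval (fun j => (C (p j) : MvPolynomial (Fin n) ℂ)) G = C (eval p G) := by
    have : (aeval (fun j => (C (p j) : MvPolynomial (Fin n) ℂ))) =
        (Algebra.ofId ℂ (MvPolynomial (Fin n) ℂ)).comp (aeval p) := by
      apply MvPolynomial.algHom_ext
      intro i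
      simp [Algebra.ofId_apply, MvPolynomial.algebraMap_eq]
    rw [this, AlgHom.comp_apply]
    simp only [Algebra.ofId_apply, MvPolynomial.algebraMap_eq]
    congr 1
  rw [h3, h0, C_0, mul_zero, map_zero] at h2
  rw [Ideal.Quotient.mkₐ_eq_mk, Ideal.Quotient.eq_zero_iff_mem] at h2
  have h4 : C ((p i₀ ^ k)⁻¹) * (C (p i₀) ^ k * G) = G := by
    rw [← C_pow, ← mul_assoc, ← C_mul, inv_mul_cancel₀ (pow_ne_zero _ hp), C_1, one_mul]
  rw [← h4]
  exact I.mul_mem_left _ h2

end Pool.Agent.NOD.S5
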