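import Pool.Agent.NOD.S5.Lem82

/-!
# Piece LOW of project NOD, section S5
-/

set_option autoImplicit false

namespace Pool.Agent.NOD.S5

open MvPolynomial Module

theorem LOW.two_choose (n : ℕ) : 2 * (n + 1).choose 2 = (n + 1) * n := by
  induction n with
  | zero => rfl
  | succ n ih =>
    rw [Nat.choose_succ_succ' (n + 1) 1, Nat.choose_one_right, mul_add, ih]
    ring

theorem LOW.sq (j : ℕ) : (j + 2 + 3).choose 3 = (j + 3).choose 3 + (j + 3) ^ 2 := by
  have h1 : (j + 2 + 3).choose 3 = (j + 4).choose 2 + (j + 4).choose 3 :=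
    Nat.choose_succ_succ' (j + 4) 2
  have h2 : (j + 4).choose 3 = (j + 3).choose 2 + (j + 3).choose 3 :=
    Nat.choose_succ_succ' (j + 3) 2
  have h3 := LOW.two_choose (j + 3)
  have h4 := LOW.two_choose (j + 2)
  have h3' : 2 * (j + 4).choose 2 = (j + 4) * (j + 3) := h3
  have h4' : 2 * (j + 3).choose 2 = (j + 3) * (j + 2) := h4
  have h5 : 2 * ((j + 4).choose 2 + (j + 3).choose 2) = 2 * (j + 3) ^ 2 := by
    rw [mul_add, h3', h4']
    ring
  omega

theorem LOW.main (hHOM4 : S_HOM4) (hTWO : S_TWO) (hADD : S_ADD) (q A B : MvPolynomial (Fin 4) ℂ)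
    (a b : ℕ) (hq : q.IsHomogeneous 2) (hirr : Irreducible q) (hA : A.IsHomogeneous a)
    (hB : B.IsHomogeneous b) (h : ¬ q ∣ A) (j : ℕ) :
    finrank ℂ (degPart (Ideal.span {q, A, B}) (j + 2 + a + b)) + 2 * a * b ≤
      finrank ℂ (W 4 (j + 2 + a + b)) := by
  have h1 : Ideal.span {q, A, B} = Ideal.span {q, A} ⊔ Ideal.span {B} := by
    rw [← Ideal.span_union]
    congr 1
    ext x
    simp only [Set.mem_insert_iff, Set.mem_singleton_iff, Set.mem_union]
    tauto
  have h2 : Ideal.span {q, A} = Ideal.span {q} ⊔ Ideal.span {A} := by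
    rw [← Ideal.span_union]
    rfl
  have hI : HomId (Ideal.span {q, A}) := by
    rw [h2]
    exact L82.homId_sup (L82.homId_span hq) (L82.homId_span hA)
  have e1 := hADD (Ideal.span {q, A}) B b hI hB (j + 2 + a)
  have e2 := hTWO q A a hq hirr hA h j
  have e3 := hTWO q A a hq hirr hA h (j + b)
  rw [← h1] at e1
  have i1 : j + b + 2 + a = j + 2 + a + b := by omega
  rw [i1] at e3
  have hw : ∀ k : ℕ, finrank ℂ (W 4 k) = (k + 3).choose 3 := hHOM4
  simp only [hw] at e1 e2 e3 ⊢
  have w1 := LOW.sq j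
  have w2 := LOW.sq (j + a)
  have w3 := LOW.sq (j + b)
  have w4 := LOW.sq (j + b + a)
  have i2 : j + a + 2 = j + 2 + a := by omega
  have i3 : j + b + a + 2 = j + 2 + a + b := by omega
  rw [i2] at w2
  rw [i3] at w4
  have key : (j + b + a + 3) ^ 2 + (j + 3) ^ 2 = (j + b + 3) ^ 2 + (j + a + 3) ^ 2 + 2 * a * b := by
    ring
  omega

theorem t_LOW (hHOM4 : S_HOM4) (hPRI : S_PRI) (hTWO : S_TWO) (hADD : S_ADD) : S_LOW := by
  intro q A B a b hq hirr hA hB
  by_cases hqA : q ∣ A
  · by_cases hqB : q ∣ B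
    · refine ⟨2 * a * b + 2, fun k hk => ?_⟩
      obtain ⟨j, rfl⟩ : ∃ j, k = j + 2 := ⟨k - 2, by omega⟩
      have h1 : Ideal.span {q, A, B} = Ideal.span {q} := by
        apply le_antisymm
        · rw [Ideal.span_le]
          intro x hx
          simp only [Set.mem_insert_iff, Set.mem_singleton_iff] at hx
          rcases hx with rfl | rfl | rfl
          · exact Ideal.mem_span_singleton_self _
          · exact Ideal.mem_span_singleton.2 hqA
          · exact Ideal.mem_span_singleton.2 hqB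
        · rw [Ideal.span_le]
          intro x hx
          rw [Set.mem_singleton_iff] at hx
          subst hx
          exact Ideal.subset_span (by simp)
      rw [h1, hPRI q hq hirr.ne_zero j]
      have hw : ∀ k : ℕ, finrank ℂ (W 4 k) = (k + 3).choose 3 := hHOM4
      simp only [hw]
      have w1 := LOW.sq j
      have h2 : j + 3 ≤ (j + 3) ^ 2 := by nlinarith
      omega
    · refine ⟨b + a + 2, fun k hk => ?_⟩
      obtain ⟨j, rfl⟩ : ∃ j, k = j + 2 + b + a := ⟨k - (b + a + 2), by omega⟩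
      have h1 := LOW.main hHOM4 hTWO hADD q B A b a hq hirr hB hA hqB j
      have h2 : ({q, B, A} : Set (MvPolynomial (Fin 4) ℂ)) = {q, A, B} := by
        ext x
        simp only [Set.mem_insert_iff, Set.mem_singleton_iff]
        tauto
      rw [h2] at h1
      have h3 : 2 * a * b = 2 * b * a := by ring
      rw [h3]
      exact h1
  · refine ⟨a + b + 2, fun k hk => ?_⟩
    obtain ⟨j, rfl⟩ : ∃ j, k = j + 2 + a + b := ⟨k - (a + b + 2), by omega⟩
    exact LOW.main hHOM4 hTWO hADD q A B a b hq hirr hA hB hqA j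

end Pool.Agent.NOD.S5
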