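import Pool.Agent.NOD.S5

/-! Piece MIN of project NOD, section S5: a homogeneous prime of height two containing `F` and `t`. -/

set_option autoImplicit false

namespace Pool.Agent.NOD.S5

open MvPolynomial Module

attribute [local instance] MvPolynomial.gradedAlgebra

theorem t_MIN : S_MIN := by
  classical
  intro n F t hF hFf htf hFt htop
  obtain ⟨Q, hQ⟩ := Ideal.nonempty_minimalPrimes htop
  have hQp : Q.IsPrime := hQ.isPrime
  have hFQ : F ∈ Q := hQ.le (Ideal.subset_span (by simp))
  have htQ : t ∈ Q := hQ.le (Ideal.subset_span (by simp))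
  -- the homogeneous core
  have hcp : (Q.homogeneousCore (homogeneousSubmodule (Fin n) ℂ)).toIdeal.IsPrime :=
    hQp.homogeneousCore
  have hle : (Q.homogeneousCore (homogeneousSubmodule (Fin n) ℂ)).toIdeal ≤ Q :=
    Ideal.toIdeal_homogeneousCore_le _ Q
  have hFc : F ∈ (Q.homogeneousCore (homogeneousSubmodule (Fin n) ℂ)).toIdeal := by
    obtain ⟨m, hm⟩ := hFf
    exact Ideal.mem_homogeneousCore_of_homogeneous_of_mem
      (show SetLike.IsHomogeneousElem (homogeneousSubmodule (Fin n) ℂ) F from ⟨m, hm⟩) hFQ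
  have htc : t ∈ (Q.homogeneousCore (homogeneousSubmodule (Fin n) ℂ)).toIdeal := by
    obtain ⟨m, hm⟩ := htf
    exact Ideal.mem_homogeneousCore_of_homogeneous_of_mem
      (show SetLike.IsHomogeneousElem (homogeneousSubmodule (Fin n) ℂ) t from ⟨m, hm⟩) htQ
  have hsp : Ideal.span {F, t} ≤ (Q.homogeneousCore (homogeneousSubmodule (Fin n) ℂ)).toIdeal := by
    rw [Ideal.span_le]
    rintro x (rfl | hx)
    · exact hFc
    · rw [Set.mem_singleton_iff] at hx
      rw [hx]
      exact htc
  have heq : Q ≤ (Q.homogeneousCore (homogeneousSubmodule (Fin n) ℂ)).toIdeal :=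
    hQ.2 ⟨hcp, hsp⟩ hle
  have hhom : Q.IsHomogeneous (homogeneousSubmodule (Fin n) ℂ) := by
    have h1 : Q = (Q.homogeneousCore (homogeneousSubmodule (Fin n) ℂ)).toIdeal :=
      le_antisymm heq hle
    rw [h1]
    exact (Q.homogeneousCore (homogeneousSubmodule (Fin n) ℂ)).2
  refine ⟨Q, hQp, fun f hf m => (mem_iff_homogeneousComponent_mem hhom f).1 hf m, hFQ, htQ, ?_⟩
  -- the height
  have hFp : (Ideal.span {F}).IsPrime :=
    (Ideal.span_singleton_prime hF.ne_zero).2 hF.prime
  have hlt : Ideal.span {F} < Q := by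
    refine lt_of_le_of_ne ((Ideal.span_singleton_le_iff_mem Q).2 hFQ) fun h => hFt ?_
    rw [← h] at htQ
    exact Ideal.mem_span_singleton.1 htQ
  have h0 : (⊥ : Ideal (MvPolynomial (Fin n) ℂ)) < Ideal.span {F} := by
    rw [bot_lt_iff_ne_bot]
    intro h
    exact hF.ne_zero (Ideal.span_singleton_eq_bot.1 h)
  have h1 : (⊥ : Ideal (MvPolynomial (Fin n) ℂ)).height + 1 ≤ (Ideal.span {F}).height :=
    Ideal.height_add_one_le_of_lt_of_isPrime h0
  have h2 : (Ideal.span {F}).height + 1 ≤ Q.height := Ideal.height_add_one_le_of_lt_of_isPrime hlt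
  have h3 : Q.height ≤ 2 := by
    have h4 := Ideal.height_le_card_of_mem_minimalPrimes_span (s := {F, t})
      (Set.toFinite _) hQ
    refine h4.trans ?_
    exact_mod_cast Set.ncard_insert_le F {t} |>.trans (by rw [Set.ncard_singleton])
  refine le_antisymm h3 ?_
  calc (2 : ℕ∞) = 0 + 1 + 1 := by norm_num
    _ ≤ (⊥ : Ideal (MvPolynomial (Fin n) ℂ)).height + 1 + 1 := by gcongr; exact bot_le
    _ ≤ (Ideal.span {F}).height + 1 := by gcongr
    _ ≤ Q.height := h2

end Pool.Agent.NOD.S5
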