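import Pool.Agent.NOD.S5

/-!
# Project NOD, section S5, piece NUL
-/

set_option autoImplicit false

namespace Pool.Agent.NOD.S5

open MvPolynomial Module

namespace NulAux

/-- the ideal of all `s` with `s * G ∈ I` -/
def K {n : ℕ} (I : Ideal (MvPolynomial (Fin n) ℂ)) (G : MvPolynomial (Fin n) ℂ) :
    Ideal (MvPolynomial (Fin n) ℂ) where
  carrier := {s | s * G ∈ I}
  add_mem' := by
    intro a b ha hb
    change (a + b) * G ∈ I
    rw [add_mul]
    exact I.add_mem ha hb
  zero_mem' := by
    change 0 * G ∈ I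
    rw [zero_mul]
    exact I.zero_mem
  smul_mem' := by
    intro c s hs
    change (c • s) * G ∈ I
    rw [smul_eq_mul, mul_assoc]
    exact I.mul_mem_left c hs

end NulAux

open NulAux

theorem t_NUL : S_NUL := by
  intro n I G hp
  have hrad : ∀ i : Fin n, (X i : MvPolynomial (Fin n) ℂ) ∈ (K I G).radical := by
    intro i
    rw [← vanishingIdeal_zeroLocus_eq_radical (K := ℂ), mem_vanishingIdeal_iff]
    intro p hpz
    have hp0 : p = 0 := by
      by_contra h
      obtain ⟨s, hs, hsG⟩ := hp p h
      exact hs (hpz s hsG)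
    rw [aeval_X, hp0]
    rfl
  choose m hm using fun i => Ideal.mem_radical_iff.mp (hrad i)
  obtain ⟨M, hM⟩ : ∃ M : ℕ, ∀ i, (X i : MvPolynomial (Fin n) ℂ) ^ M ∈ K I G := by
    refine ⟨∑ i, m i, fun i => ?_⟩
    have : m i ≤ ∑ i, m i := Finset.single_le_sum (fun _ _ => Nat.zero_le _) (Finset.mem_univ i)
    rw [← Nat.sub_add_cancel this, pow_add]
    exact (K I G).mul_mem_left _ (hm i)
  refine ⟨n * M + 1, fun k hk H hH => ?_⟩
  change H ∈ K I G
  rw [mem_homogeneousSubmodule] at hH
  rw [as_sum H]
  refine (K I G).sum_mem fun d hd => ?_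
  have hdeg : d.degree = k := by
    by_contra h
    exact (mem_support_iff.mp hd) (hH.coeff_eq_zero h)
  obtain ⟨i, hi⟩ : ∃ i, M ≤ d i := by
    by_contra h
    push Not at h
    have h1 : d.degree ≤ ∑ _i : Fin n, M := by
      rw [Finsupp.degree_eq_sum]
      exact Finset.sum_le_sum fun i _ => (h i).le
    rw [Finset.sum_const, Finset.card_univ, Fintype.card_fin, smul_eq_mul] at h1
    omega
  have hmon : monomial d (coeff d H) =
      monomial (d - Finsupp.single i M) (coeff d H) * (X i : MvPolynomial (Fin n) ℂ) ^ M := by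
    rw [X_pow_eq_monomial, monomial_mul, mul_one]
    congr 2
    ext j
    by_cases hj : j = i
    · subst hj
      simp
      omega
    · simp [Finsupp.single_apply, Ne.symm hj]
  rw [hmon]
  exact (K I G).mul_mem_left _ (hM i)

end Pool.Agent.NOD.S5
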