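import Pool.Agent.NOD.S5.Lem82

/-!
# Piece PRI of project NOD, section S5
-/

set_option autoImplicit false

namespace Pool.Agent.NOD.S5

open MvPolynomial Module

theorem t_PRI : S_PRI := by
  intro q hq hq0 k
  rw [L82.degPart_span hq k]
  exact L82.finrank_mulW hq0 _

end Pool.Agent.NOD.S5
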