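import Pool.Agent.NOD.S5

/-! Project NOD, section S5, piece PUL. -/

set_option autoImplicit false

namespace Pool.Agent.NOD.S5

open MvPolynomial Module

lemma pul_X {m n : ℕ} (L : (Fin m → ℂ) →ₗ[ℂ] (Fin n → ℂ)) (i : Fin n) :
    pull L (X i) = ∑ j, C (L (Pi.single j 1) i) * X j := by
  rw [pull, aeval_X]

lemma pul_eval {m n : ℕ} (L : (Fin m → ℂ) →ₗ[ℂ] (Fin n → ℂ)) (f : MvPolynomial (Fin n) ℂ)
    (v : Fin m → ℂ) : eval v (pull L f) = eval (L v) f := by
  induction f using MvPolynomial.induction_on with
  | C a => rw [pull, algHom_C, algebraMap_eq, eval_C, eval_C]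
  | add f g hf hg => rw [map_add, map_add, map_add, hf, hg]
  | mul_X f i hf =>
    rw [map_mul, map_mul, map_mul, hf, pul_X, map_sum, eval_X]
    congr 1
    have h1 : v = ∑ j, v j • (Pi.single j (1 : ℂ) : Fin m → ℂ) := by
      funext j
      simp [Finset.sum_apply, Pi.single_apply]
    conv_rhs => rw [h1, map_sum]
    rw [Finset.sum_apply]
    refine Finset.sum_congr rfl fun j _ => ?_
    rw [map_smul, Pi.smul_apply, smul_eq_mul, eval_mul, eval_C, eval_X, mul_comm]

theorem t_PUL : S_PUL := by
  intro m n L f
  refine ⟨pul_eval L f, fun k hf => ?_, fun v j => ?_⟩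
  · have h1 := hf.aeval (fun i => ∑ j, C (L (Pi.single j 1) i) * X j : Fin n → MvPolynomial (Fin m) ℂ)
      (n := 1) (fun i => ?_)
    · rw [one_mul] at h1
      exact h1
    · refine IsHomogeneous.sum _ _ _ fun j _ => ?_
      have h2 := (isHomogeneous_C (Fin m) (L (Pi.single j 1) i)).mul (isHomogeneous_X ℂ j)
      rwa [zero_add] at h2
  · unfold grad
    induction f using MvPolynomial.induction_on with
    | C a => simp [pull, algHom_C]
    | add f g hf hg =>
      simp only [map_add, hf, hg, mul_add, Finset.sum_add_distrib]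
    | mul_X f i hf =>
      rw [map_mul, Derivation.leibniz, map_add, smul_eq_mul, smul_eq_mul, map_mul, map_mul, hf]
      have h1 : eval v (pderiv j (pull L (X i))) = L (Pi.single j 1) i := by
        rw [pul_X, map_sum, map_sum, Finset.sum_eq_single j]
        · rw [Derivation.leibniz, pderiv_X_self, pderiv_C]
          simp
        · intro l _ hl
          rw [Derivation.leibniz, pderiv_X_of_ne hl, pderiv_C]
          simp
        · intro h
          exact absurd (Finset.mem_univ j) h
      rw [h1, pul_eval, pul_eval, eval_X]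
      have h2 : ∀ l, L (Pi.single j 1) l * eval (L v) (pderiv l (f * X i)) =
          (L (Pi.single j 1) l * eval (L v) (pderiv l f)) * (L v) i +
            (if l = i then L (Pi.single j 1) l * eval (L v) f else 0) := by
        intro l
        rw [Derivation.leibniz, smul_eq_mul, smul_eq_mul, map_add, map_mul, map_mul, eval_X]
        by_cases hl : l = i
        · rw [if_pos hl, hl, pderiv_X_self, map_one]
          ring
        · rw [if_neg hl, pderiv_X_of_ne (Ne.symm hl), map_zero]
          ring
      rw [Finset.sum_congr rfl fun l _ => h2 l, Finset.sum_add_distrib, ← Finset.sum_mul,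
        Finset.sum_ite_eq' Finset.univ i]
      simp only [Finset.mem_univ, if_true]
      ring

end Pool.Agent.NOD.S5
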