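import Pool.Agent.NOD.S5

/-!
# Project NOD, section S5, piece RED
-/

set_option autoImplicit false

namespace Pool.Agent.NOD.S5

open MvPolynomial Module

noncomputable section

attribute [local instance] MvPolynomial.gradedAlgebra

namespace REDx

theorem homId_of {n : ℕ} {I : Ideal (MvPolynomial (Fin n) ℂ)}
    (h : I.IsHomogeneous (homogeneousSubmodule (Fin n) ℂ)) : HomId I :=
  fun _ hf m => homogeneousComponent_mem_of_mem h hf m

theorem of_homId {n : ℕ} {I : Ideal (MvPolynomial (Fin n) ℂ)} (h : HomId I) :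
    I.IsHomogeneous (homogeneousSubmodule (Fin n) ℂ) := by
  intro i r hr
  have h1 := h r hr i
  rw [← decomposition.decompose'_apply] at h1
  exact h1

theorem span_pair_le {n : ℕ} {P : Ideal (MvPolynomial (Fin n) ℂ)} {F g : MvPolynomial (Fin n) ℂ}
    (hF : F ∈ P) (hg : g ∈ P) : Ideal.span {F, g} ≤ P := by
  rw [Ideal.span_le]
  rintro x (rfl | rfl)
  · exact hF
  · exact hg

end REDx

open REDx

theorem t_RED (hCAN : S_CAN) (hDIV : S_DIV) : S_RED := by
  intro n F P hF hFf hP hFP hPh hPne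
  by_contra hcon
  have hAP : AllPrincipal F := by
    intro Q h1 h2 h3 h4
    by_contra h5
    exact hcon ⟨Q, h1, h2, h3, h4, fun G hG => h5 ⟨G, hG⟩⟩
  -- the homogeneous core
  set P' : Ideal (MvPolynomial (Fin n) ℂ) :=
    (P.homogeneousCore (homogeneousSubmodule (Fin n) ℂ)).toIdeal with hP'
  have hP'P : P' ≤ P := Ideal.toIdeal_homogeneousCore_le _ P
  have hmem : ∀ t ∈ P, IsForm t → t ∈ P' := by
    rintro t ht ⟨m, hm⟩
    exact Ideal.mem_homogeneousCore_of_homogeneous_of_mem ⟨m, hm⟩ ht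
  have hP'prime : P'.IsPrime := hP.homogeneousCore
  have hP'ne : P' ≠ P := by
    intro h
    have h1 : HomId P := by
      rw [← h]
      exact homId_of (HomogeneousIdeal.isHomogeneous _)
    obtain ⟨G, hG⟩ := hAP P hP h1 hFP hPh
    exact hPne G hG
  have hP'lt : P' < P := lt_of_le_of_ne hP'P hP'ne
  have hFP' : F ∈ P' := hmem F hFP hFf
  have hFprime : (Ideal.span {F}).IsPrime :=
    (Ideal.span_singleton_prime hF.ne_zero).2 hF.prime
  have hle : Ideal.span {F} ≤ P' := (Ideal.span_singleton_le_iff_mem _).2 hFP'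
  have hP'F : P' = Ideal.span {F} := by
    by_contra hne
    have hlt : Ideal.span {F} < P' := lt_of_le_of_ne hle (Ne.symm hne)
    have hbot : (⊥ : Ideal (MvPolynomial (Fin n) ℂ)) < Ideal.span {F} := by
      rw [bot_lt_iff_ne_bot, Ne, Ideal.span_singleton_eq_bot]
      exact hF.ne_zero
    have hb : (⊥ : Ideal (MvPolynomial (Fin n) ℂ)).IsPrime := Ideal.isPrime_bot
    have e1 := Ideal.height_add_one_le_of_lt_of_isPrime hbot
    have e2 := Ideal.height_add_one_le_of_lt_of_isPrime hlt
    have e3 := Ideal.height_add_one_le_of_lt_of_isPrime hP'lt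
    rw [hPh] at e3
    have e4 : (1 : ℕ∞) ≤ (Ideal.span {F}).height := le_trans (by simp) e1
    have e5 : (2 : ℕ∞) ≤ P'.height := le_trans (by
      calc (2 : ℕ∞) = 1 + 1 := by norm_num
        _ ≤ (Ideal.span {F}).height + 1 := by gcongr) e2
    have e6 : (3 : ℕ∞) ≤ 2 := le_trans (by
      calc (3 : ℕ∞) = 2 + 1 := by norm_num
        _ ≤ P'.height + 1 := by gcongr) e3
    exact absurd e6 (by decide)
  have hlt : Ideal.span {F} < P := hP'F ▸ hP'lt
  obtain ⟨g, hg, h1, h2⟩ := hDIV n F P hF hFf hAP hP hlt (fun t ht htf => by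
    have h3 := hmem t ht htf
    rw [hP'F, Ideal.mem_span_singleton] at h3
    exact h3)
  refine hPne g (le_antisymm (fun p hp => ?_) (span_pair_le hFP hg))
  obtain ⟨t, ht, htF, htp⟩ := h1 p hp
  exact hCAN n F g hF hFf hAP h2 t p ht htF htp

end

end Pool.Agent.NOD.S5
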