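import Pool.Agent.NOD.S5.Lem82

/-!
# Piece TWO of project NOD, section S5
-/

set_option autoImplicit false

namespace Pool.Agent.NOD.S5

open MvPolynomial Module

theorem t_TWO : S_TWO := by
  intro q A a hq hirr hA hndvd k
  have hq0 : q ≠ 0 := hirr.ne_zero
  have hA0 : A ≠ 0 := by
    rintro rfl
    exact hndvd (dvd_zero q)
  have hprime : Prime q := hirr.prime
  have h1 : Ideal.span {q, A} = Ideal.span {q} ⊔ Ideal.span {A} := by
    rw [← Ideal.span_union]
    rfl
  have h2 : degPart (Ideal.span {q, A}) (k + 2 + a) =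
      L82.mulW q (W 4 (k + a)) ⊔ L82.mulW A (W 4 (k + 2)) := by
    rw [h1, L82.degPart_sup (L82.homId_span hq) hA (k + 2)]
    rw [show k + 2 + a = k + a + 2 by omega, L82.degPart_span hq (k + a)]
  have h3 : L82.mulW q (W 4 (k + a)) ⊓ L82.mulW A (W 4 (k + 2)) = L82.mulW (q * A) (W 4 k) := by
    apply le_antisymm
    · intro f hf
      obtain ⟨hf1, hf2⟩ := Submodule.mem_inf.1 hf
      obtain ⟨g, hg, hgf⟩ := L82.mem_mulW.1 hf1
      obtain ⟨h, hh, hhf⟩ := L82.mem_mulW.1 hf2
      have h4 : q ∣ A * h := ⟨g, by rw [hhf, hgf]⟩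
      rcases hprime.dvd_or_dvd h4 with h5 | ⟨c, hc⟩
      · exact absurd h5 hndvd
      · have h6 : h = homogeneousComponent k c * q := by
          rw [← L82.hc_mul c q 2 k hq, mul_comm c q, ← hc]
          exact (homogeneousComponent_eq_self hh).symm
        refine L82.mem_mulW.2 ⟨homogeneousComponent k c, homogeneousComponent_mem k c, ?_⟩
        rw [← hhf, h6]
        ring
    · intro f hf
      obtain ⟨g, hg, rfl⟩ := L82.mem_mulW.1 hf
      refine Submodule.mem_inf.2 ⟨L82.mem_mulW.2 ⟨g * A, ?_, by ring⟩,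
        L82.mem_mulW.2 ⟨g * q, ?_, by ring⟩⟩
      · exact IsHomogeneous.mul hg hA
      · exact IsHomogeneous.mul hg hq
  have h4 := Submodule.finrank_sup_add_finrank_inf_eq (L82.mulW q (W 4 (k + a)))
    (L82.mulW A (W 4 (k + 2)))
  rw [← h2, h3, L82.finrank_mulW hq0, L82.finrank_mulW hA0,
    L82.finrank_mulW (mul_ne_zero hq0 hA0)] at h4
  exact h4

end Pool.Agent.NOD.S5
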