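import Pool.Agent.NOD.S5

/-!
# Project NOD, section S5, piece UPP
-/

set_option autoImplicit false

namespace Pool.Agent.NOD.S5

open MvPolynomial Module

noncomputable section

namespace UPPx

theorem eval_smul {n k : ℕ} {f : MvPolynomial (Fin n) ℂ} (hf : f.IsHomogeneous k) (c : ℂ)
    (p : Fin n → ℂ) : eval (c • p) f = c ^ k * eval p f := by
  rw [eval_eq, eval_eq, Finset.mul_sum]
  refine Finset.sum_congr rfl fun d hd => ?_
  have h1 : ∑ i ∈ d.support, d i = k := (hf.degree_eq_sum_deg_support hd).symm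
  simp only [Pi.smul_apply, smul_eq_mul, mul_pow]
  rw [Finset.prod_mul_distrib, Finset.prod_pow_eq_pow_sum, h1]
  ring

theorem comp_mul {n d k : ℕ} {l : MvPolynomial (Fin n) ℂ} (hl : l.IsHomogeneous d)
    (c : MvPolynomial (Fin n) ℂ) (hk : d ≤ k) :
    homogeneousComponent k (c * l) = homogeneousComponent (k - d) c * l := by
  conv_lhs => rw [← sum_homogeneousComponent c]
  rw [Finset.sum_mul, map_sum]
  have h1 : ∀ i, homogeneousComponent k (homogeneousComponent i c * l) =
      if k = i + d then homogeneousComponent i c * l else 0 := fun i =>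
    homogeneousComponent_of_mem ((homogeneousComponent_isHomogeneous i c).mul hl)
  simp only [h1]
  by_cases h2 : k - d ∈ Finset.range (c.totalDegree + 1)
  · rw [Finset.sum_eq_single (k - d)]
    · rw [if_pos (by omega)]
    · intro i _ hi
      rw [if_neg (by omega)]
    · intro h
      exact absurd h2 h
  · rw [Finset.sum_eq_zero]
    · rw [homogeneousComponent_eq_zero, zero_mul]
      rw [Finset.mem_range] at h2
      omega
    · intro i hi
      rw [if_neg]
      rintro rfl
      rw [Nat.add_sub_cancel] at h2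
      exact h2 hi

instance (n k : ℕ) : FiniteDimensional ℂ (W n k) :=
  Module.Finite.iff_fg.2 (homogeneousSubmodule_fg (Fin n) ℂ k)

end UPPx

open UPPx

theorem t_UPP (hCRA : S_CRA) (hNUL : S_NUL) : S_UPP := by
  classical
  intro f hf Z hZ hZfin hLI
  set I : Ideal (MvPolynomial (Fin 4) ℂ) := Ideal.span (Set.range f) with hI
  set T : Set (MvPolynomial (Fin 4) ℂ) := {G | IsForm G ∧ ∀ p ∈ Z, eval p.rep G = 0} with hT
  obtain ⟨T₀, hT₀, hspan⟩ := (Submodule.fg_span_iff_fg_span_finset_subset
    (R := MvPolynomial (Fin 4) ℂ) T).1 (IsNoetherian.noetherian _)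
  -- every form vanishing on `Z` is in `I` after multiplication by forms of large degree
  have hN : ∀ G ∈ T, ∃ N : ℕ, ∀ k ≥ N, ∀ H ∈ W 4 k, H * G ∈ I := by
    intro G hG
    refine hNUL 4 I G fun p hp => ?_
    by_cases hi : ∃ i, eval p (f i) ≠ 0
    · obtain ⟨i, hi⟩ := hi
      exact ⟨f i, hi, Ideal.mul_mem_right _ _ (Ideal.subset_span ⟨i, rfl⟩)⟩
    · push Not at hi
      obtain ⟨a, ha⟩ := Projectivization.exists_smul_eq_mk_rep ℂ p hp
      have ha' : (Projectivization.mk ℂ p hp).rep = (a : ℂ) • p := ha.symm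
      have hmem : Projectivization.mk ℂ p hp ∈ Z := by
        rw [hZ]
        intro i
        obtain ⟨m, hm⟩ := hf i
        rw [ha', eval_smul hm, hi i, mul_zero]
      have hli := hLI _ hmem
      choose m hm using hf
      have hg : ∀ i, grad (f i) (Projectivization.mk ℂ p hp).rep =
          ((a ^ (m i - 1) : ℂˣ) : ℂ) • grad (f i) p := by
        intro i
        funext j
        show eval _ (pderiv j (f i)) = _
        rw [ha', eval_smul ((hm i).pderiv)]
        simp [grad]
      have hli2 : LinearIndependent ℂ (fun i => grad (f i) p) := by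
        have h1 := hli.units_smul (fun i => (a ^ (m i - 1) : ℂˣ)⁻¹)
        convert h1 using 1
        funext i
        show _ = (a ^ (m i - 1) : ℂˣ)⁻¹ • grad (f i) (Projectivization.mk ℂ p hp).rep
        rw [hg i, Units.smul_def, smul_smul]
        simp
      obtain ⟨s, hs, hs2⟩ := hCRA p f hp (fun i => ⟨m i, hm i⟩) hi hli2
      refine ⟨s, hs, hs2 G hG.1 ?_⟩
      obtain ⟨m', hm'⟩ := hG.1
      have h2 := hG.2 _ hmem
      rw [ha', eval_smul hm'] at h2
      exact (mul_eq_zero.1 h2).resolve_left (pow_ne_zero _ a.ne_zero)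
  choose! NN hNN using hN
  set N : ℕ := T₀.sup NN with hNdef
  set Dg : ℕ := T₀.sup MvPolynomial.totalDegree with hDg
  refine ⟨N + Dg, fun k hk => ?_⟩
  have hin : ∀ G ∈ T, G ∈ W 4 k → G ∈ I := by
    intro G hG hGk
    have h1 : G ∈ Submodule.span (MvPolynomial (Fin 4) ℂ) (T₀ : Set (MvPolynomial (Fin 4) ℂ)) := by
      rw [← hspan]
      exact Submodule.subset_span hG
    obtain ⟨c, -, hc⟩ := Submodule.mem_span_finset.1 h1
    have h2 : G = ∑ l ∈ T₀, homogeneousComponent k (c l * l) := by
      have h3 := congrArg (homogeneousComponent k) hc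
      rw [homogeneousComponent_eq_self hGk, map_sum] at h3
      exact h3.symm
    rw [h2]
    refine Ideal.sum_mem _ fun l hl => ?_
    have hlT := hT₀ hl
    obtain ⟨d, hd⟩ := hlT.1
    by_cases hl0 : l = 0
    · rw [hl0, mul_zero, map_zero]
      exact I.zero_mem
    · have hdD : d ≤ Dg := by
        rw [← hd.totalDegree hl0]
        exact Finset.le_sup (f := MvPolynomial.totalDegree) hl
      have hNl : NN l ≤ N := Finset.le_sup (f := NN) hl
      rw [comp_mul hd (c l) (by omega)]
      exact hNN l hlT (k - d) (by omega) _ (homogeneousComponent_isHomogeneous _ _)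
  have : Fintype Z := hZfin.fintype
  let ev : W 4 k →ₗ[ℂ] (Z → ℂ) :=
    LinearMap.pi fun p => ((aeval (R := ℂ) p.1.rep).toLinearMap).comp (W 4 k).subtype
  have hev : ∀ (G : W 4 k) (p : Z), ev G p = eval p.1.rep (G : MvPolynomial (Fin 4) ℂ) := by
    intro G p
    show aeval p.1.rep (G : MvPolynomial (Fin 4) ℂ) = _
    rw [aeval_eq_eval]
  have hker : (LinearMap.ker ev).map (W 4 k).subtype ≤ degPart I k := by
    rintro _ ⟨G, hG, rfl⟩
    refine ⟨G.2, ?_⟩
    show (G : MvPolynomial (Fin 4) ℂ) ∈ I
    refine hin _ ⟨⟨k, G.2⟩, fun p hp => ?_⟩ G.2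
    have h1 := congrFun (LinearMap.mem_ker.1 hG) ⟨p, hp⟩
    rw [hev] at h1
    exact h1
  have hfd : FiniteDimensional ℂ (degPart I k) :=
    Submodule.finiteDimensional_of_le (inf_le_left : degPart I k ≤ W 4 k)
  have e1 := LinearMap.finrank_range_add_finrank_ker ev
  have e2 : finrank ℂ (LinearMap.range ev) ≤ Z.ncard := by
    refine (Submodule.finrank_le _).trans ?_
    rw [Module.finrank_fintype_fun_eq_card, Set.ncard_eq_toFinset_card', Set.toFinset_card]
  have e3 : finrank ℂ (LinearMap.ker ev) ≤ finrank ℂ (degPart I k) := by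
    rw [(Submodule.equivMapOfInjective (W 4 k).subtype (Submodule.injective_subtype (W 4 k))
      (LinearMap.ker ev)).finrank_eq]
    exact Submodule.finrank_mono hker
  omega

end

end Pool.Agent.NOD.S5
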