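import Pool.Agent.NOD.S5

/-!
# Common lemmas for the pieces PRI, TWO, ADD, LOW of project NOD, section S5
-/

set_option autoImplicit false

namespace Pool.Agent.NOD.S5.L82

open MvPolynomial Module Pool.Agent.NOD.S5

variable {n : ℕ}

instance instFinW (n k : ℕ) : FiniteDimensional ℂ (W n k) :=
  Module.Finite.iff_fg.2 (homogeneousSubmodule_fg _ _ k)

instance instFinDeg (I : Ideal (MvPolynomial (Fin n) ℂ)) (k : ℕ) :
    FiniteDimensional ℂ (degPart I k) :=
  Submodule.finiteDimensional_of_le (inf_le_left : degPart I k ≤ W n k)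

theorem mem_degPart {I : Ideal (MvPolynomial (Fin n) ℂ)} {k : ℕ} {f : MvPolynomial (Fin n) ℂ} :
    f ∈ degPart I k ↔ f.IsHomogeneous k ∧ f ∈ I := by
  unfold degPart
  rw [Submodule.mem_inf, Submodule.restrictScalars_mem]
  exact Iff.rfl

theorem hc_of {g : MvPolynomial (Fin n) ℂ} {k m : ℕ} (h : g.IsHomogeneous k) :
    homogeneousComponent m g = if m = k then g else 0 :=
  homogeneousComponent_of_mem h

/-- components of a product with a form -/
theorem hc_mul (g B : MvPolynomial (Fin n) ℂ) (b k : ℕ) (hB : B.IsHomogeneous b) :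
    homogeneousComponent (k + b) (g * B) = homogeneousComponent k g * B := by
  have h1 : ∀ i, homogeneousComponent (k + b) (homogeneousComponent i g * B) =
      if k = i then homogeneousComponent k g * B else 0 := by
    intro i
    rw [hc_of ((homogeneousComponent_isHomogeneous i g).mul hB)]
    by_cases h : k = i
    · subst h
      simp
    · rw [if_neg h, if_neg (by omega)]
  conv_lhs => rw [← sum_homogeneousComponent g, Finset.sum_mul, map_sum]
  rw [Finset.sum_congr rfl fun i _ => h1 i, Finset.sum_ite_eq]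
  split_ifs with h
  · rfl
  · rw [Finset.mem_range] at h
    rw [homogeneousComponent_eq_zero k g (by omega), zero_mul]

theorem hc_mul_lt (g B : MvPolynomial (Fin n) ℂ) (b m : ℕ) (hB : B.IsHomogeneous b)
    (hm : m < b) : homogeneousComponent m (g * B) = 0 := by
  have h1 : ∀ i, homogeneousComponent m (homogeneousComponent i g * B) = 0 := by
    intro i
    rw [hc_of ((homogeneousComponent_isHomogeneous i g).mul hB), if_neg (by omega)]
  conv_lhs => rw [← sum_homogeneousComponent g, Finset.sum_mul, map_sum]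
  exact Finset.sum_eq_zero fun i _ => h1 i

theorem homId_span {B : MvPolynomial (Fin n) ℂ} {b : ℕ} (hB : B.IsHomogeneous b) :
    HomId (Ideal.span {B}) := by
  intro f hf m
  obtain ⟨g, rfl⟩ := Ideal.mem_span_singleton'.1 hf
  rcases lt_or_ge m b with h | h
  · rw [hc_mul_lt g B b m hB h]
    exact Ideal.zero_mem _
  · obtain ⟨k, rfl⟩ := Nat.exists_eq_add_of_le h
    rw [add_comm b k, hc_mul g B b k hB]
    exact Ideal.mul_mem_left _ _ (Ideal.mem_span_singleton_self B)

theorem homId_sup {I J : Ideal (MvPolynomial (Fin n) ℂ)} (hI : HomId I) (hJ : HomId J) :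
    HomId (I ⊔ J) := by
  intro f hf m
  obtain ⟨i, hi, j, hj, rfl⟩ := Submodule.mem_sup.1 hf
  rw [map_add]
  exact Submodule.add_mem_sup (hI i hi m) (hJ j hj m)

/-- multiplication by `B` on the forms of degree `k` -/
noncomputable abbrev mulW (B : MvPolynomial (Fin n) ℂ) (U : Submodule ℂ (MvPolynomial (Fin n) ℂ)) :
    Submodule ℂ (MvPolynomial (Fin n) ℂ) := U.map (LinearMap.mulLeft ℂ B)

theorem finrank_mulW {B : MvPolynomial (Fin n) ℂ} (hB : B ≠ 0)
    (U : Submodule ℂ (MvPolynomial (Fin n) ℂ)) : finrank ℂ (mulW B U) = finrank ℂ U := by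
  have hinj : Function.Injective (LinearMap.mulLeft ℂ B) := by
    intro x y hxy
    exact mul_left_cancel₀ hB hxy
  exact (Submodule.equivMapOfInjective (LinearMap.mulLeft ℂ B) hinj U).finrank_eq.symm

theorem mem_mulW {B f : MvPolynomial (Fin n) ℂ} {U : Submodule ℂ (MvPolynomial (Fin n) ℂ)} :
    f ∈ mulW B U ↔ ∃ g ∈ U, B * g = f := by
  unfold mulW
  rw [Submodule.mem_map]
  rfl

/-- the forms of an ideal to which a form is added -/
theorem degPart_sup {I : Ideal (MvPolynomial (Fin n) ℂ)} {B : MvPolynomial (Fin n) ℂ} {b : ℕ}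
    (hI : HomId I) (hB : B.IsHomogeneous b) (k : ℕ) :
    degPart (I ⊔ Ideal.span {B}) (k + b) = degPart I (k + b) ⊔ mulW B (W n k) := by
  apply le_antisymm
  · intro f hf
    obtain ⟨h1, h2⟩ := mem_degPart.1 hf
    obtain ⟨i, hi, j, hj, hij⟩ := Submodule.mem_sup.1 h2
    obtain ⟨g, rfl⟩ := Ideal.mem_span_singleton'.1 hj
    have h3 : f = homogeneousComponent (k + b) i + homogeneousComponent k g * B := by
      rw [← hc_mul g B b k hB, ← map_add, hij]
      exact (homogeneousComponent_eq_self h1).symm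
    rw [h3]
    refine Submodule.add_mem_sup ?_ ?_
    · exact mem_degPart.2 ⟨homogeneousComponent_isHomogeneous _ _, hI i hi _⟩
    · exact mem_mulW.2 ⟨homogeneousComponent k g, homogeneousComponent_mem k g, mul_comm _ _⟩
  · refine sup_le ?_ ?_
    · intro f hf
      obtain ⟨h1, h2⟩ := mem_degPart.1 hf
      exact mem_degPart.2 ⟨h1, Submodule.mem_sup_left h2⟩
    · intro f hf
      obtain ⟨g, hg, rfl⟩ := mem_mulW.1 hf
      refine mem_degPart.2 ⟨?_, Submodule.mem_sup_right ?_⟩
      · rw [mul_comm B g]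
        exact IsHomogeneous.mul hg hB
      · exact Ideal.mul_mem_right _ _ (Ideal.mem_span_singleton_self B)

theorem degPart_span {B : MvPolynomial (Fin n) ℂ} {b : ℕ} (hB : B.IsHomogeneous b) (k : ℕ) :
    degPart (Ideal.span {B}) (k + b) = mulW B (W n k) := by
  have h1 := degPart_sup (I := ⊥) (n := n) (fun f hf m => by
    rw [Ideal.mem_bot.1 hf, map_zero]
    exact Ideal.zero_mem _) hB k
  rw [bot_sup_eq] at h1
  rw [h1]
  have h2 : degPart (⊥ : Ideal (MvPolynomial (Fin n) ℂ)) (k + b) = ⊥ := by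
    rw [eq_bot_iff]
    intro f hf
    have := (mem_degPart.1 hf).2
    rw [Ideal.mem_bot] at this
    rw [this]
    exact Submodule.zero_mem _
  rw [h2, bot_sup_eq]

end Pool.Agent.NOD.S5.L82
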