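import Pool.Agent.NOD.S5

/-! Piece SUP of section S5 of project NOD. -/

set_option autoImplicit false

namespace Pool.Agent.NOD.S5.SUPaux

open MvPolynomial

variable {n : ℕ}

theorem sum_comp (f : MvPolynomial (Fin n) ℂ) {N : ℕ} (hN : f.totalDegree < N) :
    ∑ i ∈ Finset.range N, homogeneousComponent i f = f := by
  conv_rhs => rw [← sum_homogeneousComponent f]
  symm
  refine Finset.sum_subset (Finset.range_subset_range.2 hN) fun i _ hi => ?_
  rw [Finset.mem_range, not_lt] at hi
  exact homogeneousComponent_eq_zero _ _ (by omega)

/-- the components of a product -/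
theorem comp_mul (f g : MvPolynomial (Fin n) ℂ) (m : ℕ) :
    homogeneousComponent m (f * g) =
      ∑ x ∈ Finset.HasAntidiagonal.antidiagonal m, homogeneousComponent x.1 f * homogeneousComponent x.2 g := by
  set N := max (max f.totalDegree g.totalDegree) m + 1 with hN
  have hf : ∑ i ∈ Finset.range N, homogeneousComponent i f = f := sum_comp f (by omega)
  have hg : ∑ i ∈ Finset.range N, homogeneousComponent i g = g := sum_comp g (by omega)
  have h1 : f * g = ∑ x ∈ Finset.range N ×ˢ Finset.range N,
      homogeneousComponent x.1 f * homogeneousComponent x.2 g := by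
    rw [Finset.sum_product]; dsimp only; rw [← Finset.sum_mul_sum, hf, hg]
  conv_lhs => rw [h1, map_sum]
  have h2 : ∀ x ∈ Finset.range N ×ˢ Finset.range N,
      homogeneousComponent m (homogeneousComponent x.1 f * homogeneousComponent x.2 g) =
      if x.1 + x.2 = m then homogeneousComponent x.1 f * homogeneousComponent x.2 g else 0 := by
    intro x _
    have h3 : (homogeneousComponent x.1 f * homogeneousComponent x.2 g).IsHomogeneous
        (x.1 + x.2) := (homogeneousComponent_isHomogeneous _ _).mul
          (homogeneousComponent_isHomogeneous _ _)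
    rw [homogeneousComponent_of_mem ((mem_homogeneousSubmodule _ _).2 h3)]
    by_cases h : x.1 + x.2 = m
    · rw [if_pos h, if_pos h.symm]
    · rw [if_neg h, if_neg (fun h' => h h'.symm)]
  rw [Finset.sum_congr rfl h2, ← Finset.sum_filter]
  refine Finset.sum_congr ?_ fun _ _ => rfl
  ext x
  simp only [Finset.mem_filter, Finset.mem_product, Finset.mem_range, Finset.HasAntidiagonal.mem_antidiagonal]
  constructor
  · exact fun h => h.2
  · intro h
    refine ⟨⟨?_, ?_⟩, h⟩ <;> omega

/-- a component of a product which is congruent to a product of two components -/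
theorem comp_mul_sub {I : Ideal (MvPolynomial (Fin n) ℂ)} {f g : MvPolynomial (Fin n) ℂ} {a b : ℕ}
    (h : ∀ i j, i + j = a + b → (i, j) ≠ (a, b) →
      homogeneousComponent i f ∈ I ∨ homogeneousComponent j g ∈ I) :
    homogeneousComponent (a + b) (f * g) - homogeneousComponent a f * homogeneousComponent b g ∈ I := by
  rw [comp_mul]
  have hab : (a, b) ∈ Finset.HasAntidiagonal.antidiagonal (a + b) := Finset.HasAntidiagonal.mem_antidiagonal.2 rfl
  rw [← Finset.add_sum_erase _ _ hab, add_sub_cancel_left]
  refine Ideal.sum_mem _ fun x hx => ?_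
  obtain ⟨h1, h2⟩ := Finset.mem_erase.1 hx
  rcases h x.1 x.2 (Finset.HasAntidiagonal.mem_antidiagonal.1 h2) h1 with h3 | h3
  · exact Ideal.mul_mem_right _ _ h3
  · exact Ideal.mul_mem_left _ _ h3

end Pool.Agent.NOD.S5.SUPaux

namespace Pool.Agent.NOD.S5

open MvPolynomial SUPaux

theorem t_SUP : S_SUP := by
  intro n I hI hh
  refine ⟨?_, ?_, ?_, ?_⟩
  · intro f hf
    classical
    have h1 : ∃ m, homogeneousComponent m f ∉ I := by
      by_contra h
      push Not at h
      apply hf
      rw [← sum_homogeneousComponent f]
      exact Ideal.sum_mem _ fun m _ => h m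
    have hb : ∀ m, homogeneousComponent m f ∉ I → m ≤ f.totalDegree := by
      intro m hm
      by_contra h
      push Not at h
      exact hm (by rw [homogeneousComponent_eq_zero _ _ h]; exact I.zero_mem)
    set S := (Finset.range (f.totalDegree + 1)).filter fun m => homogeneousComponent m f ∉ I with hS
    have hmem : ∀ m, m ∈ S ↔ homogeneousComponent m f ∉ I := by
      intro m
      rw [hS, Finset.mem_filter, Finset.mem_range]
      exact ⟨fun h => h.2, fun h => ⟨by have := hb m h; omega, h⟩⟩
    have hne : S.Nonempty := by
      obtain ⟨m, hm⟩ := h1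
      exact ⟨m, (hmem m).2 hm⟩
    refine ⟨S.min' hne, S.max' hne, S.min'_le_max' hne, ⟨(hmem _).1 (S.min'_mem hne), ?_⟩,
      ⟨(hmem _).1 (S.max'_mem hne), ?_⟩⟩
    · intro m hm
      by_contra h
      have := S.min'_le m ((hmem m).2 h)
      omega
    · intro m hm
      by_contra h
      have := S.le_max' m ((hmem m).2 h)
      omega
  · intro f a b ha hb
    refine ⟨?_, fun hf => ha.1 (hh f hf a)⟩
    by_contra h
    push Not at h
    exact hb.1 (ha.2 b h)
  · intro f g a b ha hb
    refine ⟨?_, ?_⟩
    · intro h
      have h1 : homogeneousComponent (a + b) (f * g) -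
          homogeneousComponent a f * homogeneousComponent b g ∈ I := by
        refine comp_mul_sub fun i j hij hne => ?_
        rcases lt_trichotomy i a with h1 | h1 | h1
        · exact Or.inl (ha.2 i h1)
        · exact absurd (by rw [h1, show j = b by omega]) hne
        · exact Or.inr (hb.2 j (by omega))
      have h2 := I.sub_mem h h1
      rw [sub_sub_cancel] at h2
      rcases hI.mem_or_mem h2 with h3 | h3
      · exact ha.1 h3
      · exact hb.1 h3
    · intro m hm
      rw [comp_mul]
      refine Ideal.sum_mem _ fun x hx => ?_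
      rw [Finset.HasAntidiagonal.mem_antidiagonal] at hx
      rcases lt_or_ge x.1 a with h1 | h1
      · exact Ideal.mul_mem_right _ _ (ha.2 _ h1)
      · exact Ideal.mul_mem_left _ _ (hb.2 _ (by omega))
  · intro f g a b ha hb
    refine ⟨?_, ?_⟩
    · intro h
      have h1 : homogeneousComponent (a + b) (f * g) -
          homogeneousComponent a f * homogeneousComponent b g ∈ I := by
        refine comp_mul_sub fun i j hij hne => ?_
        rcases lt_trichotomy a i with h1 | h1 | h1
        · exact Or.inl (ha.2 i h1)
        · exact absurd (by rw [← h1, show j = b by omega]) hne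
        · exact Or.inr (hb.2 j (by omega))
      have h2 := I.sub_mem h h1
      rw [sub_sub_cancel] at h2
      rcases hI.mem_or_mem h2 with h3 | h3
      · exact ha.1 h3
      · exact hb.1 h3
    · intro m hm
      rw [comp_mul]
      refine Ideal.sum_mem _ fun x hx => ?_
      rw [Finset.HasAntidiagonal.mem_antidiagonal] at hx
      rcases lt_or_ge a x.1 with h1 | h1
      · exact Ideal.mul_mem_right _ _ (ha.2 _ h1)
      · exact Ideal.mul_mem_left _ _ (hb.2 _ (by omega))

end Pool.Agent.NOD.S5
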